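import Mathlib

/-! EULER (MP_a3e05c_co), block NC, scalar part: upper bound for the central binomial
coefficient. -/

open Finset Filter Topology Real

namespace MP_a3e05c_co.NCS

/-- the probability that `2 m` fair signs have sum zero -/
noncomputable def cb (m : ℕ) : ℝ := (Nat.centralBinom m : ℝ) / 4 ^ m

theorem cb_pos (m : ℕ) : 0 < cb m := by
  unfold cb
  have := Nat.centralBinom_pos m
  positivity

theorem cb_succ (m : ℕ) : cb (m + 1) = cb m * ((2 * m + 1) / (2 * m + 2)) := by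
  unfold cb
  have h := Nat.succ_mul_centralBinom_succ m
  have h1 : ((m : ℝ) + 1) * (Nat.centralBinom (m + 1) : ℝ) =
      2 * (2 * m + 1) * (Nat.centralBinom m : ℝ) := by
    exact_mod_cast h
  have h2 : (Nat.centralBinom (m + 1) : ℝ) = 2 * (2 * m + 1) * (Nat.centralBinom m : ℝ) /
      (m + 1) := by
    rw [eq_div_iff (by positivity)]
    linarith
  rw [h2, pow_succ]
  field_simp
  ring

theorem cb_wallis (m : ℕ) : cb m ^ 2 * (2 * m + 1) * Wallis.W m = 1 := by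
  induction m with
  | zero => simp [cb, Wallis.W]
  | succ k ih =>
    rw [cb_succ, Wallis.W_succ]
    push_cast
    have h : (cb k * ((2 * (k : ℝ) + 1) / (2 * k + 2))) ^ 2 * (2 * (k + 1) + 1) *
        (Wallis.W k * ((2 * k + 2) / (2 * k + 1) * ((2 * k + 2) / (2 * k + 3)))) =
        cb k ^ 2 * (2 * k + 1) * Wallis.W k := by
      have h1 : (2 * (k : ℝ) + 1) ≠ 0 := by positivity
      have h2 : (2 * (k : ℝ) + 2) ≠ 0 := by positivity
      have h3 : (2 * (k : ℝ) + 3) ≠ 0 := by positivity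
      field_simp
      ring
    rw [h, ih]

theorem cb_mono : Monotone fun m : ℕ => cb m ^ 2 * ((m : ℝ) + 1 / 4) := by
  apply monotone_nat_of_le_succ
  intro m
  rw [cb_succ]
  push_cast
  have h := cb_pos m
  have h1 : (m : ℝ) + 1 / 4 ≤ ((2 * (m : ℝ) + 1) / (2 * m + 2)) ^ 2 * (m + 1 + 1 / 4) := by
    rw [div_pow, div_mul_eq_mul_div, le_div_iff₀ (by positivity)]
    nlinarith
  calc cb m ^ 2 * ((m : ℝ) + 1 / 4) ≤
      cb m ^ 2 * (((2 * (m : ℝ) + 1) / (2 * m + 2)) ^ 2 * (m + 1 + 1 / 4)) :=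
        mul_le_mul_of_nonneg_left h1 (by positivity)
    _ = _ := by ring

theorem cb_tendsto : Tendsto (fun m : ℕ => cb m ^ 2 * ((m : ℝ) + 1 / 4)) atTop (𝓝 (1 / π)) := by
  have h1 : (fun m : ℕ => cb m ^ 2 * ((m : ℝ) + 1 / 4)) =
      fun m : ℕ => (((m : ℝ) + 1 / 4) / (2 * m + 1)) * (Wallis.W m)⁻¹ := by
    funext m
    have h := cb_wallis m
    have hW := Wallis.W_pos m
    have h2 : (2 * (m : ℝ) + 1) ≠ 0 := by positivity
    field_simp
    have h3 : cb m ^ 2 * (2 * m + 1) * Wallis.W m = 1 := h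
    nlinarith [h3]
  rw [h1]
  have h2 : Tendsto (fun m : ℕ => ((m : ℝ) + 1 / 4) / (2 * m + 1)) atTop (𝓝 (1 / 2)) := by
    have h3 : (fun m : ℕ => ((m : ℝ) + 1 / 4) / (2 * m + 1)) =
        fun m : ℕ => 1 / 2 - (1 / 8) * (1 / ((m : ℝ) + 1 / 2)) := by
      funext m
      have h4 : (2 * (m : ℝ) + 1) ≠ 0 := by positivity
      have h5 : ((m : ℝ) + 1 / 2) ≠ 0 := by positivity
      field_simp
      ring
    rw [h3]
    have h6 : Tendsto (fun m : ℕ => 1 / ((m : ℝ) + 1 / 2)) atTop (𝓝 0) := by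
      have h7 : Tendsto (fun m : ℕ => (m : ℝ) + 1 / 2) atTop atTop :=
        tendsto_atTop_add_const_right _ _ tendsto_natCast_atTop_atTop
      have h8 := tendsto_inv_atTop_zero.comp h7
      refine h8.congr fun m => ?_
      simp [Function.comp]
    simpa using tendsto_const_nhds.sub (h6.const_mul (1 / 8 : ℝ))
  have h3 := Wallis.tendsto_W_nhds_pi_div_two.inv₀ (by positivity)
  have h4 := h2.mul h3
  have h5 : (1 : ℝ) / 2 * (π / 2)⁻¹ = 1 / π := by
    field_simp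
  rw [h5] at h4
  exact h4

theorem cb_sq_le (m : ℕ) : cb m ^ 2 ≤ 1 / (π * ((m : ℝ) + 1 / 4)) := by
  have h := cb_mono.ge_of_tendsto cb_tendsto m
  have hp := pi_pos
  rw [le_div_iff₀ (by positivity)]
  have h1 : cb m ^ 2 * ((m : ℝ) + 1 / 4) ≤ 1 / π := h
  rw [le_div_iff₀ hp] at h1
  calc cb m ^ 2 * (π * ((m : ℝ) + 1 / 4)) = cb m ^ 2 * ((m : ℝ) + 1 / 4) * π := by ring
    _ ≤ 1 := h1

/-- the logarithmic form; `n = 2 m + 1` -/
theorem log_cb_le (m : ℕ) : log (cb m) ≤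
    -(1 / 2) * log (π * (2 * (m : ℝ) + 1 / 2) / 2) := by
  have h := cb_sq_le m
  have hp := pi_pos
  have h1 : log (cb m ^ 2) ≤ log (1 / (π * ((m : ℝ) + 1 / 4))) :=
    log_le_log (by have := cb_pos m; positivity) h
  rw [log_pow, one_div, log_inv] at h1
  have h2 : π * (2 * (m : ℝ) + 1 / 2) / 2 = π * ((m : ℝ) + 1 / 4) := by ring
  rw [h2]
  push_cast at h1
  linarith

end MP_a3e05c_co.NCS
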