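import Mathlib
import Pool.Agent.Lib.MP_a3e05c_co.NCS.Cb

/-! EULER (MP_a3e05c_co), block NC, scalar part: the explicit chain bound for the complete graph
in terms of the main term. -/

open Finset Filter Topology Real

namespace MP_a3e05c_co.NCS

/-- the main term of `log (RT n / 2 ^ (n choose 2))` -/
noncomputable def mainR (n : ℝ) : ℝ := log n / 2 - 1 / 2 - (n - 1) / 2 * log (π * n / 2)

/-- the explicit chain bound for `log P (K (d + 1))` -/
noncomputable def Ud (d : ℕ) : ℝ :=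
  d * log (cb (d / 2)) +
    (1 / 2) * ∑ k ∈ Ico 2 d, -log (1 - (k : ℝ) * (k - 1) / (((d : ℝ) - 1) ^ 2 * (d - k + 1)))

theorem neg_log_le (y : ℝ) (hy : 0 ≤ y) : -log (1 + y) ≤ -y + y ^ 2 / 2 := by
  have h := le_log_one_add_of_nonneg hy
  have h1 : y - y ^ 2 / 2 ≤ 2 * y / (y + 2) := by
    rw [le_div_iff₀ (by linarith)]
    nlinarith [pow_nonneg hy 3]
  linarith

theorem term_le (N L : ℝ) (hN : 3 ≤ N) (hL : 2 ≤ L) (hLN : L ≤ N) :
    -log (1 - (N + 2 - L) * (N + 1 - L) / (N ^ 2 * L)) ≤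
      log L - log (L - 1) - (2 / N - (L - 2) / N ^ 2 - 1 / (N * (L - 1))) +
        (2 / N - (L - 2) / N ^ 2 - 1 / (N * (L - 1))) ^ 2 / 2 := by
  set y : ℝ := 2 / N - (L - 2) / N ^ 2 - 1 / (N * (L - 1)) with hy
  have hN0 : 0 < N := by linarith
  have hL0 : 0 < L := by linarith
  have hL1 : 0 < L - 1 := by linarith
  have hy0 : 0 ≤ y := by
    have h1 : 1 / (N * (L - 1)) ≤ 1 / N := by
      apply one_div_le_one_div_of_le hN0
      nlinarith
    have h2 : (L - 2) / N ^ 2 ≤ 1 / N := by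
      rw [div_le_div_iff₀ (by positivity) hN0]
      nlinarith
    have h3 : 2 / N = 1 / N + 1 / N := by ring
    rw [hy, h3]
    linarith
  have h1 : 1 - (N + 2 - L) * (N + 1 - L) / (N ^ 2 * L) = (L - 1) / L * (1 + y) := by
    rw [hy]
    field_simp
    ring
  rw [h1, log_mul (by positivity) (by positivity), log_div hL1.ne' hL0.ne']
  have h2 := neg_log_le y hy0
  linarith

theorem inv_le_log (x : ℝ) (hx : 1 / 2 < x) : 1 / x ≤ log (x + 1 / 2) - log (x - 1 / 2) := by
  obtain ⟨u, rfl⟩ : ∃ u, x = u + 1 / 2 := ⟨x - 1 / 2, by ring⟩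
  have h0 : 0 < u := by linarith
  have e1 : u + 1 / 2 + 1 / 2 = u + 1 := by ring
  have e2 : u + 1 / 2 - 1 / 2 = u := by ring
  rw [e1, e2]
  have h1 : 0 ≤ 1 / u := by positivity
  have h2 := le_log_one_add_of_nonneg h1
  have h3 : 1 + 1 / u = (u + 1) / u := by
    field_simp
  have h4 : 2 * (1 / u) / (1 / u + 2) = 1 / (u + 1 / 2) := by
    have h5 : 1 + 2 * u ≠ 0 := by positivity
    have h6 : u + 1 / 2 ≠ 0 := by positivity
    field_simp
    ring
  rw [h3, log_div (by positivity) h0.ne', h4] at h2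
  exact h2

/-- the partial sums -/
theorem partial_le (N : ℝ) (hN : 3 ≤ N) (M : ℕ) (hM : 3 ≤ M) (hMN : (M : ℝ) ≤ N + 1) :
    ∑ L ∈ Ico 2 M, -log (1 - (N + 2 - L) * (N + 1 - L) / (N ^ 2 * L)) ≤
      log (M - 1) - ((2 * N + 2) * (M - 2) - ((M - 1) * M / 2 - 1)) / N ^ 2 +
        ((2 * N + 2) ^ 2 * (M - 2) - (2 * N + 2) * ((M - 1) * M - 2) +
          ((M - 1) * M * (2 * M - 1) / 6 - 1)) / (2 * N ^ 4) +
        (M - 2) / N ^ 3 + (1 / N - (2 * N + 1) / N ^ 3) * (1 + log (M - 3 / 2) - log (3 / 2)) +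
        (5 / 3 - 1 / (M - 3 / 2)) / (2 * N ^ 2) := by
  have hN0 : 0 < N := by linarith
  induction M, hM using Nat.le_induction with
  | base =>
    have h := term_le N 2 hN le_rfl (by linarith)
    have h1 : Ico 2 3 = ({2} : Finset ℕ) := by rfl
    rw [h1, sum_singleton]
    push_cast
    refine h.trans (le_of_eq ?_)
    have e1 : (3 : ℝ) - 1 = 2 := by norm_num
    have e2 : (3 : ℝ) - 3 / 2 = 3 / 2 := by norm_num
    have e3 : (2 : ℝ) - 1 = 1 := by norm_num
    rw [e1, e2, e3, log_one]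
    field_simp
    ring
  | succ M hM ih =>
    have hM3 : (3 : ℝ) ≤ M := by exact_mod_cast hM
    push_cast at hMN
    have h1 := ih (by linarith)
    rw [sum_Ico_succ_top (by omega)]
    have h2 := term_le N M hN (by linarith) (by linarith)
    have h3 := inv_le_log ((M : ℝ) - 1) (by linarith)
    have h4 : (M : ℝ) - 1 + 1 / 2 = M - 1 / 2 := by ring
    have h5 : (M : ℝ) - 1 - 1 / 2 = M - 3 / 2 := by ring
    rw [h4, h5] at h3
    have hc : 0 ≤ 1 / N - (2 * N + 1) / N ^ 3 := by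
      have h6 : 1 / N - (2 * N + 1) / N ^ 3 = (N ^ 2 - 2 * N - 1) / N ^ 3 := by
        field_simp
        ring
      rw [h6]
      apply div_nonneg _ (by positivity)
      nlinarith
    have h6 := mul_le_mul_of_nonneg_left h3 hc
    have h7 : 1 / (2 * N ^ 2 * ((M : ℝ) - 1) ^ 2) ≤
        (1 / ((M : ℝ) - 3 / 2) - 1 / ((M : ℝ) - 1 / 2)) / (2 * N ^ 2) := by
      have h8 : 1 / ((M : ℝ) - 1) ^ 2 ≤ 1 / ((M : ℝ) - 3 / 2) - 1 / ((M : ℝ) - 1 / 2) := by
        have h9 : 1 / ((M : ℝ) - 3 / 2) - 1 / ((M : ℝ) - 1 / 2) =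
            1 / (((M : ℝ) - 3 / 2) * (M - 1 / 2)) := by
          have hx1 : (M : ℝ) - 3 / 2 ≠ 0 := by linarith
          have hx2 : (M : ℝ) - 1 / 2 ≠ 0 := by linarith
          rw [div_sub_div _ _ hx1 hx2]
          congr 1
          ring
        rw [h9]
        apply one_div_le_one_div_of_le
        · apply mul_pos <;> linarith
        · nlinarith
      have h10 : 1 / (2 * N ^ 2 * ((M : ℝ) - 1) ^ 2) = (1 / ((M : ℝ) - 1) ^ 2) / (2 * N ^ 2) := by
        have : (M : ℝ) - 1 ≠ 0 := by linarith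
        field_simp
      rw [h10]
      exact div_le_div_of_nonneg_right h8 (by positivity)
    have h8 : (M : ℝ) - 1 ≠ 0 := by linarith
    have h9 : -(2 / N - ((M : ℝ) - 2) / N ^ 2 - 1 / (N * (M - 1))) +
        (2 / N - ((M : ℝ) - 2) / N ^ 2 - 1 / (N * (M - 1))) ^ 2 / 2 =
        -((2 * N + 2 - M) / N ^ 2) + (2 * N + 2 - M) ^ 2 / (2 * N ^ 4) + 1 / N ^ 3 +
        (1 / N - (2 * N + 1) / N ^ 3) * (1 / ((M : ℝ) - 1)) +
        1 / (2 * N ^ 2 * ((M : ℝ) - 1) ^ 2) := by
      field_simp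
      ring
    have e1 : ((M + 1 : ℕ) : ℝ) = (M : ℝ) + 1 := by push_cast; ring
    rw [e1]
    have e2 : (M : ℝ) + 1 - 1 = M := by ring
    have e3 : (M : ℝ) + 1 - 3 / 2 = M - 1 / 2 := by ring
    rw [e2, e3]
    have e4 : ((2 * N + 2) * ((M : ℝ) + 1 - 2) - (M * (M + 1) / 2 - 1)) / N ^ 2 =
        ((2 * N + 2) * ((M : ℝ) - 2) - ((M - 1) * M / 2 - 1)) / N ^ 2 +
          (2 * N + 2 - M) / N ^ 2 := by
      ring
    have e5 : ((2 * N + 2) ^ 2 * ((M : ℝ) + 1 - 2) - (2 * N + 2) * (M * (M + 1) - 2) +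
          (M * (M + 1) * (2 * (M + 1) - 1) / 6 - 1)) / (2 * N ^ 4) =
        ((2 * N + 2) ^ 2 * ((M : ℝ) - 2) - (2 * N + 2) * ((M - 1) * M - 2) +
          ((M - 1) * M * (2 * M - 1) / 6 - 1)) / (2 * N ^ 4) +
          (2 * N + 2 - M) ^ 2 / (2 * N ^ 4) := by
      ring
    have e6 : ((M : ℝ) + 1 - 2) / N ^ 3 = ((M : ℝ) - 2) / N ^ 3 + 1 / N ^ 3 := by
      ring
    have e7 : (1 / N - (2 * N + 1) / N ^ 3) * (1 + log ((M : ℝ) - 1 / 2) - log (3 / 2)) =
        (1 / N - (2 * N + 1) / N ^ 3) * (1 + log ((M : ℝ) - 3 / 2) - log (3 / 2)) +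
        (1 / N - (2 * N + 1) / N ^ 3) * (log ((M : ℝ) - 1 / 2) - log ((M : ℝ) - 3 / 2)) := by
      ring
    have e8 : (5 / 3 - 1 / ((M : ℝ) - 1 / 2)) / (2 * N ^ 2) =
        (5 / 3 - 1 / ((M : ℝ) - 3 / 2)) / (2 * N ^ 2) +
        (1 / ((M : ℝ) - 3 / 2) - 1 / ((M : ℝ) - 1 / 2)) / (2 * N ^ 2) := by
      ring
    rw [e4, e5, e6, e7, e8]
    linarith

theorem log_three_halves : (81 / 200 : ℝ) ≤ log (3 / 2) := by
  have a1 := le_log_one_add_of_nonneg (x := 1 / 8) (by norm_num)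
  have a2 := le_log_one_add_of_nonneg (x := 1 / 9) (by norm_num)
  have a3 := le_log_one_add_of_nonneg (x := 1 / 10) (by norm_num)
  have a4 := le_log_one_add_of_nonneg (x := 1 / 11) (by norm_num)
  have h : log (3 / 2 : ℝ) = log (1 + 1 / 8) + log (1 + 1 / 9) + log (1 + 1 / 10) +
      log (1 + 1 / 11) := by
    rw [← log_mul (by norm_num) (by norm_num), ← log_mul (by norm_num) (by norm_num),
      ← log_mul (by norm_num) (by norm_num)]
    norm_num
  rw [h]
  norm_num at a1 a2 a3 a4 ⊢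
  linarith

/-- the sum of the logarithms -/
theorem sum_le (N : ℝ) (M : ℕ) (hN : 19 ≤ N) (hM : (M : ℝ) = N + 1) :
    ∑ L ∈ Ico 2 M, -log (1 - (N + 2 - L) * (N + 1 - L) / (N ^ 2 * L)) ≤
      log (N + 2) - 3 / 2 + (log (N + 2) + 19 / 40) / (N + 2) := by
  have hN0 : 0 < N := by linarith
  have hM3 : 3 ≤ M := by
    have : (3 : ℝ) ≤ M := by rw [hM]; linarith
    exact_mod_cast this
  have h := partial_le N (by linarith) M hM3 (by rw [hM])
  rw [hM] at h
  refine h.trans ?_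
  have h1 : log N + 2 / (N + 1) ≤ log (N + 2) := by
    have h2 := le_log_one_add_of_nonneg (x := 2 / N) (by positivity)
    have h3 : 2 * (2 / N) / (2 / N + 2) = 2 / (N + 1) := by
      have h4 : 2 / N + 2 = 2 * (N + 1) / N := by
        field_simp
        ring
      rw [h4]
      field_simp
    have h4 : log (N + 2) = log N + log (1 + 2 / N) := by
      rw [← log_mul hN0.ne' (by positivity)]
      congr 1
      field_simp
    rw [h3] at h2
    linarith
  have h2 : log (N - 1 / 2) ≤ log N - 1 / (2 * N) := by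
    have h3 : log (N - 1 / 2) = log N + log (1 - 1 / (2 * N)) := by
      rw [← log_mul hN0.ne' (by
        have : 1 / (2 * N) < 1 := by
          rw [div_lt_one (by positivity)]
          linarith
        linarith)]
      congr 1
      field_simp
    have h4 : log (1 - 1 / (2 * N)) ≤ -(1 / (2 * N)) := by
      have h5 := log_le_sub_one_of_pos (x := 1 - 1 / (2 * N)) (by
        have : 1 / (2 * N) < 1 := by
          rw [div_lt_one (by positivity)]
          linarith
        linarith)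
      linarith
    linarith
  have h3 := log_three_halves
  have h4 : 0 ≤ log N := log_nonneg (by linarith)
  have hc : 0 ≤ 1 / N - (2 * N + 1) / N ^ 3 := by
    have h6 : 1 / N - (2 * N + 1) / N ^ 3 = (N ^ 2 - 2 * N - 1) / N ^ 3 := by
      field_simp
      ring
    rw [h6]
    apply div_nonneg _ (by positivity)
    nlinarith
  have e1 : N + 1 - 1 = N := by ring
  have e2 : N + 1 - 3 / 2 = N - 1 / 2 := by ring
  rw [e1, e2]
  have h5 : (1 / N - (2 * N + 1) / N ^ 3) * (1 + log (N - 1 / 2) - log (3 / 2)) ≤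
      (1 / N - (2 * N + 1) / N ^ 3) * (1 + (log N - 1 / (2 * N)) - 81 / 200) := by
    apply mul_le_mul_of_nonneg_left _ hc
    linarith
  have h6 : (log N + 2 / (N + 1) + 19 / 40) / (N + 2) ≤ (log (N + 2) + 19 / 40) / (N + 2) := by
    apply div_le_div_of_nonneg_right _ (by linarith)
    linarith
  have h7 : (5 / 3 - 1 / (N - 1 / 2)) / (2 * N ^ 2) ≤ (5 / 3) / (2 * N ^ 2) := by
    apply div_le_div_of_nonneg_right _ (by positivity)
    have : 0 ≤ 1 / (N - 1 / 2) := by
      apply one_div_nonneg.2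
      linarith
    linarith
  have hkey : (log N + 2 / (N + 1) - 3 / 2 + (log N + 2 / (N + 1) + 19 / 40) / (N + 2)) -
      (log N - ((2 * N + 2) * (N + 1 - 2) - (N * (N + 1) / 2 - 1)) / N ^ 2 +
        ((2 * N + 2) ^ 2 * (N + 1 - 2) - (2 * N + 2) * (N * (N + 1) - 2) +
          (N * (N + 1) * (2 * (N + 1) - 1) / 6 - 1)) / (2 * N ^ 4) +
        (N + 1 - 2) / N ^ 3 +
        (1 / N - (2 * N + 1) / N ^ 3) * (1 + (log N - 1 / (2 * N)) - 81 / 200) +
        (5 / 3) / (2 * N ^ 2)) =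
      (128 * N ^ 5 - 1022 * N ^ 4 - 4315 * N ^ 3 + 1049 * N ^ 2 + 1814 * N) /
        (600 * N ^ 4 * (N + 1) * (N + 2)) + log N * ((5 * N + 2) / (N ^ 3 * (N + 2))) := by
    have : N + 1 ≠ 0 := by linarith
    have : N + 2 ≠ 0 := by linarith
    field_simp
    ring
  have h8 : 0 ≤ (128 * N ^ 5 - 1022 * N ^ 4 - 4315 * N ^ 3 + 1049 * N ^ 2 + 1814 * N) /
        (600 * N ^ 4 * (N + 1) * (N + 2)) := by
    apply div_nonneg _ (by positivity)
    obtain ⟨t, rfl⟩ : ∃ t, N = t + 19 := ⟨N - 19, by ring⟩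
    have ht : 0 ≤ t := by linarith
    have : 128 * (t + 19) ^ 5 - 1022 * (t + 19) ^ 4 - 4315 * (t + 19) ^ 3 + 1049 * (t + 19) ^ 2 +
        1814 * (t + 19) = 128 * t ^ 5 + 11138 * t ^ 4 + 380093 * t ^ 3 + 6320962 * t ^ 2 +
        50734379 * t + 154569180 := by ring
    rw [this]
    positivity
  have h9 : 0 ≤ log N * ((5 * N + 2) / (N ^ 3 * (N + 2))) := by positivity
  linarith

/-- the explicit chain bound is at most the main term plus `((1/2) log n + 1/20) / n` -/
theorem Ud_le (d : ℕ) (hd : Even d) (h20 : 20 ≤ d) :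
    Ud d ≤ mainR (d + 1) + (log (d + 1) / 2 + 1 / 20) / (d + 1) := by
  obtain ⟨m, rfl⟩ := hd
  have hd20 : (20 : ℝ) ≤ ((m + m : ℕ) : ℝ) := by exact_mod_cast h20
  set d : ℝ := ((m + m : ℕ) : ℝ) with hdr
  have hm : (m : ℝ) = d / 2 := by
    rw [hdr]
    push_cast
    ring
  have hp := pi_pos
  -- the sum
  have h1 : ∑ k ∈ Ico 2 (m + m), -log (1 - (k : ℝ) * (k - 1) / ((d - 1) ^ 2 * (d - k + 1))) =
      ∑ L ∈ Ico 2 (m + m), -log (1 - ((d - 1) + 2 - L) * ((d - 1) + 1 - L) /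
        ((d - 1) ^ 2 * L)) := by
    have h2 := sum_Ico_reflect (fun L : ℕ => -log (1 - ((d - 1) + 2 - L) * ((d - 1) + 1 - L) /
        ((d - 1) ^ 2 * L))) 2 (m := m + m) (n := m + m + 1) (by omega)
    have h3 : m + m + 1 + 1 - (m + m) = 2 := by omega
    have h4 : m + m + 1 + 1 - 2 = m + m := by omega
    rw [h3, h4] at h2
    rw [← h2]
    apply sum_congr rfl
    intro k hk
    rw [mem_Ico] at hk
    have h5 : ((m + m + 1 - k : ℕ) : ℝ) = d + 1 - k := by
      rw [Nat.cast_sub (by omega)]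
      push_cast
      rw [hdr]
      push_cast
      ring
    rw [h5]
    have h6 : (d - 1 + 2 - (d + 1 - k)) * (d - 1 + 1 - (d + 1 - (k : ℝ))) = k * (k - 1) := by ring
    have h7 : d + 1 - (k : ℝ) = d - k + 1 := by ring
    rw [h6, h7]
  have h2 := sum_le (d - 1) (m + m) (by linarith) (by rw [← hdr]; ring)
  -- the central binomial coefficient
  have h3 := log_cb_le m
  have h4 : π * (2 * (m : ℝ) + 1 / 2) / 2 = π * (d + 1) / 2 * (1 - 1 / (2 * (d + 1))) := by
    rw [hm]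
    field_simp
    ring
  have h5 : 0 < 1 - 1 / (2 * (d + 1)) := by
    have : 1 / (2 * (d + 1)) < 1 := by
      rw [div_lt_one (by positivity)]
      linarith
    linarith
  rw [h4, log_mul (by positivity) h5.ne'] at h3
  -- the logarithm of `1 - x`
  have h6 : -log (1 - 1 / (2 * (d + 1))) * (d / 2) ≤ 1 / 4 - 3 / (16 * (d + 1)) := by
    set x : ℝ := 1 / (2 * (d + 1)) with hx
    have hx0 : 0 < x := by positivity
    have hx1 : x ≤ 1 / 42 := by
      rw [hx]
      apply one_div_le_one_div_of_le (by norm_num)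
      linarith
    have h7 : -log (1 - x) ≤ x + x ^ 2 / 2 + x ^ 3 := by
      have h9 := abs_log_sub_add_sum_range_le (x := x) (by rw [abs_of_pos hx0]; linarith) 3
      rw [abs_le] at h9
      have h10 := h9.1
      rw [abs_of_pos hx0] at h10
      simp only [sum_range_succ, sum_range_zero] at h10
      norm_num at h10
      have h11 : x ^ 4 / (1 - x) ≤ x ^ 3 * (1 / 41) := by
        rw [div_le_iff₀ (by linarith)]
        have h12 : 0 < x ^ 3 := by positivity
        nlinarith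
      have h12 : 0 < x ^ 3 := by positivity
      linarith
    have hd1 : d = 1 / (2 * x) - 1 := by
      rw [hx]
      field_simp
      ring
    have h8 : d / 2 = (1 - 2 * x) / (4 * x) := by
      rw [hd1]
      field_simp
      ring
    have h9 : 1 / 4 - 3 / (16 * (d + 1)) = 1 / 4 - 3 * x / 8 := by
      rw [hd1]
      field_simp
      ring
    rw [h8, h9]
    have h10 : 0 ≤ (1 - 2 * x) / (4 * x) := by
      apply div_nonneg _ (by positivity)
      linarith
    refine (mul_le_mul_of_nonneg_right h7 h10).trans ?_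
    have h11 : (x + x ^ 2 / 2 + x ^ 3) * ((1 - 2 * x) / (4 * x)) =
        1 / 4 - 3 * x / 8 - x ^ 3 / 2 := by
      field_simp
      ring
    rw [h11]
    have : 0 < x ^ 3 := by positivity
    linarith
  -- conclusion
  unfold Ud
  rw [← hdr, h1]
  have hdiv : (m + m) / 2 = m := by omega
  rw [hdiv]
  have e1 : d - 1 + 2 = d + 1 := by ring
  rw [e1] at h2
  have h7 : d * log (cb m) ≤ d * (-(1 / 2) * (log (π * (d + 1) / 2) +
      log (1 - 1 / (2 * (d + 1))))) := mul_le_mul_of_nonneg_left h3 (by linarith)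
  unfold mainR
  have h8 : (log (d + 1) + 19 / 40) / (d + 1) = log (d + 1) / (d + 1) + (19 / 40) / (d + 1) := by
    ring
  have h9 : (log (d + 1) / 2 + 1 / 20) / (d + 1) =
      log (d + 1) / (d + 1) / 2 + (1 / 20) / (d + 1) := by ring
  have h10 : 3 / (16 * (d + 1)) = (3 / 16) / (d + 1) := by
    field_simp
  have h11 : (19 / 40 : ℝ) / (d + 1) / 2 - (3 / 16) / (d + 1) = (1 / 20) / (d + 1) := by
    ring
  rw [h9]
  rw [h8] at h2
  rw [h10] at h6
  have h12 : (d + 1 - 1) / 2 * log (π * (d + 1) / 2) = d / 2 * log (π * (d + 1) / 2) := by ring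
  rw [h12]
  simp only [e1] at h2 ⊢
  linarith

end MP_a3e05c_co.NCS
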