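import Mathlib
import Pool.Agent.Lib.MP_a3e05c_co.NC.Defs

/-! EULER (MP_a3e05c_co), block NC: even graphs have few edges at every vertex. -/

open Finset

namespace MP_a3e05c_co.NC

variable {V : Type} [Fintype V] [DecidableEq V]

theorem card_filter_mem {e : Sym2 V} (he : ¬ e.IsDiag) :
    (univ.filter fun v => v ∈ e).card = 2 := by
  induction e using Sym2.ind with
  | _ x y =>
    have hxy : x ≠ y := by simpa using he
    have h : (univ.filter fun v => v ∈ s(x, y)) = {x, y} := by
      ext v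
      simp
    rw [h, card_pair hxy]

theorem sum_fd {F : Finset (Sym2 V)} (hF : F ⊆ KE V) : ∑ v, fd F v = 2 * F.card := by
  unfold fd
  simp only [card_filter]
  rw [sum_comm]
  have h : ∀ e ∈ F, ∑ v : V, (if v ∈ e then 1 else 0) = 2 := by
    intro e he
    rw [← card_filter]
    exact card_filter_mem (mem_KE.1 (hF he))
  rw [sum_congr rfl h, sum_const, smul_eq_mul, mul_comm]

theorem fd_pos_of_mem {F : Finset (Sym2 V)} {e : Sym2 V} (he : e ∈ F) {v : V} (hv : v ∈ e) :
    0 < fd F v := by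
  unfold fd
  exact card_pos.2 ⟨e, mem_filter.2 ⟨he, hv⟩⟩

/-- the neighbours of `v` in `F` -/
theorem exists_nbr {F : Finset (Sym2 V)} (hF : F ⊆ KE V) (hev : ∀ v, Even (fd F v)) (v : V) :
    ∃ N : Finset V, N.card = fd F v ∧ v ∉ N ∧ ∀ u ∈ N, 2 ≤ fd F u := by
  set N : Finset V := univ.filter fun u => u ≠ v ∧ s(v, u) ∈ F with hN
  refine ⟨N, ?_, by simp [hN], ?_⟩
  · unfold fd
    apply card_bij (fun u _ => s(v, u))
    · intro u hu
      rw [hN, mem_filter] at hu
      exact mem_filter.2 ⟨hu.2.2, Sym2.mem_mk_left v u⟩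
    · intro u hu u' hu' h
      rw [Sym2.eq_iff] at h
      rcases h with h | h
      · exact h.2
      · exact h.2.trans (h.1)
    · intro e he
      rw [mem_filter] at he
      obtain ⟨u, rfl⟩ := Sym2.mem_iff_exists.1 he.2
      refine ⟨u, ?_, rfl⟩
      rw [hN, mem_filter]
      refine ⟨mem_univ _, ?_, he.1⟩
      have h := mem_KE.1 (hF he.1)
      intro h1
      apply h
      rw [h1]
      simp
  · intro u hu
    rw [hN, mem_filter] at hu
    have h3 : 0 < fd F u := fd_pos_of_mem hu.2.2 (Sym2.mem_mk_right v u)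
    obtain ⟨k, hk⟩ := hev u
    omega

theorem three_fd_le {F : Finset (Sym2 V)} (hF : F ⊆ KE V) (hev : ∀ v, Even (fd F v)) (v : V) :
    3 * fd F v ≤ 2 * F.card := by
  rw [← sum_fd hF]
  obtain ⟨N, hcard, hvN, hN2⟩ := exists_nbr hF hev v
  have h1 : ∑ u ∈ insert v N, fd F u ≤ ∑ u, fd F u :=
    sum_le_sum_of_subset (subset_univ _)
  rw [sum_insert hvN] at h1
  have h2 : 2 * N.card ≤ ∑ u ∈ N, fd F u := by
    rw [mul_comm, ← smul_eq_mul, ← sum_const]
    exact sum_le_sum hN2
  omega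

theorem three_le_card {F : Finset (Sym2 V)} (hF : F ⊆ KE V) (hev : ∀ v, Even (fd F v))
    (hne : F.Nonempty) : 3 ≤ F.card := by
  obtain ⟨e, he⟩ := hne
  induction e using Sym2.ind with
  | _ x y =>
    have h1 : 0 < fd F x := fd_pos_of_mem he (Sym2.mem_mk_left x y)
    have h2 := three_fd_le hF hev x
    obtain ⟨k, hk⟩ := hev x
    omega

end MP_a3e05c_co.NC
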