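import Mathlib
import Pool.Agent.Lib.MP_a3e05c_co.NCS.Delta

/-! EULER (MP_a3e05c_co), block NC, scalar part: the inequality for the closed near cliques. -/

open Finset Filter Topology Real

namespace MP_a3e05c_co.NCS

/-- the lower bound for the difference of consecutive constants from the bounds for the
complete graphs -/
theorem delta_A (A : ℕ → ℝ) (d : ℕ) (h22 : 22 ≤ d)
    (hL : mainR ((d : ℝ) - 1) / ((d : ℝ) - 1) ≤ A (d - 2))
    (hU : A d ≤ (mainR (d + 1) + (log (d + 1) / 2 + 1 / 20) / (d + 1)) / (d + 1)) :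
    1 / 2 * (1 / ((d : ℝ) - 1) + 1 / ((d : ℝ) - 2)) + 57 / 100 / ((d : ℝ) + 1) ^ 2 ≤
      A (d - 2) - A d := by
  have h : (22 : ℝ) ≤ d := by exact_mod_cast h22
  have h1 := delta_main ((d : ℝ) + 1) (by linarith)
  have e1 : (d : ℝ) + 1 - 2 = d - 1 := by ring
  have e2 : (d : ℝ) + 1 - 3 = d - 2 := by ring
  rw [e1, e2] at h1
  linarith

/-- the sum over the pairs of missing half edges at one vertex -/
theorem per_vertex (A : ℕ → ℝ) (κ : ℝ) (D m : ℕ) (hD : Even D) (hm : 2 * m ≤ D)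
    (hΔ : ∀ d : ℕ, Even d → D - 2 * m < d → d ≤ D →
      1 / 2 * (1 / ((d : ℝ) - 1) + 1 / ((d : ℝ) - 2)) + κ ≤ A (d - 2) - A d) :
    1 / 2 * ∑ k ∈ Icc 1 (2 * m), 1 / ((D : ℝ) - k) + m * κ ≤ A (D - 2 * m) - A D := by
  induction m with
  | zero => simp
  | succ m ih =>
    have h1 := ih (by omega) (fun d hd h1 h2 => hΔ d hd (by omega) h2)
    have h2 := hΔ (D - 2 * m) (by
      rw [Nat.even_sub (by omega)]
      simp [hD]) (by omega) (by omega)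
    have e1 : ((D - 2 * m : ℕ) : ℝ) = (D : ℝ) - 2 * m := by
      rw [Nat.cast_sub (by omega)]
      push_cast
      ring
    have e2 : D - 2 * m - 2 = D - 2 * (m + 1) := by omega
    rw [e1, e2] at h2
    have h3 : 2 * (m + 1) = 2 * m + 1 + 1 := by ring
    have h4 : Icc 1 (2 * (m + 1)) = insert (2 * m + 2) (insert (2 * m + 1) (Icc 1 (2 * m))) := by
      ext k
      simp only [mem_Icc, mem_insert]
      omega
    rw [h4, sum_insert (by simp), sum_insert (by simp)]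
    push_cast at h1 h2 ⊢
    have e3 : (D : ℝ) - (2 * m + 2) = D - 2 * m - 2 := by ring
    have e4 : (D : ℝ) - (2 * m + 1) = D - 2 * m - 1 := by ring
    rw [e3, e4]
    linarith

/-- the general form: `S` bounds the sum of `f (f - 1)` -/
theorem scalar_gen {V : Type} [Fintype V] (f : V → ℕ) (n q M : ℕ) (κ S : ℝ)
    (hodd : Odd n) (hf : ∀ v, Even (f v)) (hsum : ∑ v, f v = 2 * q)
    (hM : ∀ v, f v ≤ M) (hMn : 2 * M + 2 < n)
    (hS : ∑ v, (f v : ℝ) * ((f v : ℝ) - 1) ≤ S) (A : ℕ → ℝ)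
    (hΔ : ∀ d : ℕ, Even d → n - 1 - M < d → d ≤ n - 1 →
      1 / 2 * (1 / ((d : ℝ) - 1) + 1 / ((d : ℝ) - 2)) + κ / (n : ℝ) ^ 2 ≤ A (d - 2) - A d) :
    ∑ v, (1 / 2 * ∑ k ∈ Icc 1 (f v), 1 / ((n : ℝ) - 1 - k) +
      (f v : ℝ) * ((f v : ℝ) - 1) / (4 * ((n : ℝ) - 2 - 2 * (M : ℝ)) *
        ((n : ℝ) - 1 - (M : ℝ)) ^ 2)) +
      (q * (κ / (n : ℝ) ^ 2) - S / (4 * ((n : ℝ) - 2 - 2 * (M : ℝ)) *
        ((n : ℝ) - 1 - (M : ℝ)) ^ 2)) ≤
      ∑ v, (A (n - 1 - f v) - A (n - 1)) := by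
  have hE : Even (n - 1) := by
    obtain ⟨k, hk⟩ := hodd
    exact ⟨k, by omega⟩
  have en : ((n - 1 : ℕ) : ℝ) = (n : ℝ) - 1 := by
    rw [Nat.cast_sub (by omega)]
    norm_num
  have hMn' : 2 * (M : ℝ) + 2 < n := by exact_mod_cast hMn
  have hM0 : (0 : ℝ) ≤ M := Nat.cast_nonneg M
  -- one vertex
  have h1 : ∀ v, 1 / 2 * ∑ k ∈ Icc 1 (f v), 1 / ((n : ℝ) - 1 - k) +
      (f v : ℝ) / 2 * (κ / (n : ℝ) ^ 2) ≤ A (n - 1 - f v) - A (n - 1) := by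
    intro v
    obtain ⟨m, hm⟩ := hf v
    have h2 : f v = 2 * m := by omega
    have h0 := hM v
    have h3 := per_vertex A (κ / (n : ℝ) ^ 2) (n - 1) m hE (by omega)
      (fun d hd h1 h2 => hΔ d hd (by omega) h2)
    rw [h2]
    push_cast
    rw [en] at h3
    have h5 : 2 * (m : ℝ) / 2 = m := by ring
    rw [h5]
    exact h3
  set c : ℝ := 4 * ((n : ℝ) - 2 - 2 * (M : ℝ)) * ((n : ℝ) - 1 - (M : ℝ)) ^ 2 with hc
  have hc0 : 0 < c := by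
    rw [hc]
    apply mul_pos
    · linarith
    · apply pow_pos
      linarith
  have hs : (∑ v, (f v : ℝ)) = 2 * q := by exact_mod_cast hsum
  have h3 : ∑ v, (f v : ℝ) * ((f v : ℝ) - 1) / c ≤ S / c := by
    rw [← sum_div]
    exact div_le_div_of_nonneg_right hS hc0.le
  have h4 : ∑ v, (1 / 2 * ∑ k ∈ Icc 1 (f v), 1 / ((n : ℝ) - 1 - k)) + q * (κ / (n : ℝ) ^ 2) ≤
      ∑ v, (A (n - 1 - f v) - A (n - 1)) := by
    have h5 := sum_le_sum fun v (_ : v ∈ (univ : Finset V)) => h1 v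
    rw [sum_add_distrib, ← sum_mul, ← sum_div, hs] at h5
    have h6 : 2 * (q : ℝ) / 2 = q := by ring
    rw [h6] at h5
    exact h5
  rw [sum_add_distrib]
  linarith

/-- the sum of `f (f - 1)` for an even graph with a vertex of maximal degree `M` -/
theorem sum_sq_le {V : Type} [Fintype V] [DecidableEq V] (f : V → ℕ) (v₀ : V) (N : Finset V)
    (M q : ℕ) (hv : f v₀ = M) (hN : N.card = M) (hvN : v₀ ∉ N) (h2 : ∀ u ∈ N, 2 ≤ f u)
    (hM : ∀ u, f u ≤ M) (hsum : ∑ v, f v = 2 * q) :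
    ∑ v, (f v : ℝ) * ((f v : ℝ) - 1) ≤ 2 * ((M : ℝ) + 1) * ((q : ℝ) - M) := by
  have hs : (∑ v, (f v : ℝ)) = 2 * q := by exact_mod_cast hsum
  have h : ∀ v, (f v : ℝ) * ((f v : ℝ) - 1) ≤ ((M : ℝ) + 1) * f v +
      (if v = v₀ then -2 * (M : ℝ) else 0) + (if v ∈ N then -2 * (M : ℝ) else 0) := by
    intro v
    have hfM : (f v : ℝ) ≤ M := by exact_mod_cast hM v
    have h0 : (0 : ℝ) ≤ f v := Nat.cast_nonneg _
    by_cases h3 : v = v₀
    · rw [if_pos h3, h3, if_neg hvN, hv]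
      nlinarith
    · rw [if_neg h3]
      by_cases h4 : v ∈ N
      · rw [if_pos h4]
        have h5 : (2 : ℝ) ≤ f v := by exact_mod_cast h2 v h4
        nlinarith
      · rw [if_neg h4]
        nlinarith
  refine (sum_le_sum fun v _ => h v).trans (le_of_eq ?_)
  rw [sum_add_distrib, sum_add_distrib, ← mul_sum, hs, sum_ite_eq' univ v₀, if_pos (mem_univ _)]
  rw [← sum_filter, filter_mem_eq_inter, univ_inter, sum_const, hN, nsmul_eq_mul]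
  ring

/-- the second order terms -/
theorem second_order (n q M : ℕ) (h2q : 2 * q + 3 ≤ n) (h3M : 3 * M ≤ 2 * q) :
    2 * ((M : ℝ) + 1) * ((q : ℝ) - M) / (4 * ((n : ℝ) - 2 - 2 * (M : ℝ)) *
        ((n : ℝ) - 1 - (M : ℝ)) ^ 2) ≤
      q * (9 * ((M : ℝ) + 1) / (8 * ((n : ℝ) - 3)) / (n : ℝ) ^ 2) := by
  have h1 : 2 * (q : ℝ) + 3 ≤ n := by exact_mod_cast h2q
  have h2 : 3 * (M : ℝ) ≤ 2 * q := by exact_mod_cast h3M
  have hM0 : (0 : ℝ) ≤ M := Nat.cast_nonneg M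
  have hq0 : (0 : ℝ) ≤ q := Nat.cast_nonneg q
  rcases hq0.lt_or_eq with hq | hq
  · have h3 : 0 < (n : ℝ) - 3 := by linarith
    have h4 : 0 < (n : ℝ) - 2 - 2 * M := by linarith
    have h5 : 2 * (n : ℝ) / 3 ≤ n - 1 - M := by linarith
    have hn : 0 < (n : ℝ) := by linarith
    have h6 : 4 * (n : ℝ) ^ 2 / 9 ≤ ((n : ℝ) - 1 - M) ^ 2 := by
      calc 4 * (n : ℝ) ^ 2 / 9 = (2 * (n : ℝ) / 3) ^ 2 := by ring
        _ ≤ _ := pow_le_pow_left₀ (by positivity) h5 2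
    have h7 : ((q : ℝ) - M) * (n - 3) ≤ q * (n - 2 - 2 * M) := by
      nlinarith
    have e1 : q * (9 * ((M : ℝ) + 1) / (8 * ((n : ℝ) - 3)) / (n : ℝ) ^ 2) =
        (9 * (M + 1) * q) / (8 * (n - 3) * n ^ 2) := by
      field_simp
    rw [e1, div_le_div_iff₀ (by
      apply mul_pos (by linarith)
      apply pow_pos
      linarith) (by positivity)]
    have h8 : (((q : ℝ) - M) * (n - 3)) * (4 * (n : ℝ) ^ 2 / 9) ≤
        (q * (n - 2 - 2 * M)) * ((n : ℝ) - 1 - M) ^ 2 := by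
      apply mul_le_mul h7 h6 (by positivity)
      positivity
    calc 2 * ((M : ℝ) + 1) * ((q : ℝ) - M) * (8 * ((n : ℝ) - 3) * (n : ℝ) ^ 2) =
        36 * (M + 1) * ((((q : ℝ) - M) * (n - 3)) * (4 * (n : ℝ) ^ 2 / 9)) := by ring
      _ ≤ 36 * (M + 1) * ((q * (n - 2 - 2 * M)) * ((n : ℝ) - 1 - M) ^ 2) := by
        apply mul_le_mul_of_nonneg_left h8
        positivity
      _ = _ := by ring
  · have hM : (M : ℝ) = 0 := by linarith
    rw [← hq, hM]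
    simp

/-- the choice of the constants for `n ≥ 23` -/
theorem final_le (n q M : ℕ) (h23 : 23 ≤ n) (h2q : 2 * q + 3 ≤ n) (h3M : 3 * M ≤ 2 * q)
    (h4 : 4 ≤ M) : 5 / 4 / (n : ℝ) ^ 2 ≤
      q * (57 / 100 / (n : ℝ) ^ 2) - q * (9 * ((M : ℝ) + 1) / (8 * ((n : ℝ) - 3)) / (n : ℝ) ^ 2) := by
  have hn : (23 : ℝ) ≤ n := by exact_mod_cast h23
  have h1 : 2 * (q : ℝ) + 3 ≤ n := by exact_mod_cast h2q
  have h2 : 3 * (M : ℝ) ≤ 2 * q := by exact_mod_cast h3M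
  have hM0 : (4 : ℝ) ≤ M := by exact_mod_cast h4
  have e1 : q * (57 / 100 / (n : ℝ) ^ 2) -
      q * (9 * ((M : ℝ) + 1) / (8 * ((n : ℝ) - 3)) / (n : ℝ) ^ 2) =
      (q * (57 / 100 - 9 * ((M : ℝ) + 1) / (8 * ((n : ℝ) - 3)))) / (n : ℝ) ^ 2 := by
    have : (n : ℝ) - 3 ≠ 0 := by linarith
    field_simp
  rw [e1]
  apply div_le_div_of_nonneg_right _ (by positivity)
  set m : ℝ := (n : ℝ) - 3 with hm
  have hm20 : 20 ≤ m := by rw [hm]; linarith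
  have hm3 : 3 * (M : ℝ) ≤ m := by rw [hm]; linarith
  have hkey : 27 * (M : ℝ) * (M + 1) + 20 * m ≤ 1368 / 100 * M * m := by
    rcases Nat.lt_or_ge M 7 with h7 | h7
    · have h7' : (M : ℝ) ≤ 6 := by
        have : M ≤ 6 := by omega
        exact_mod_cast this
      nlinarith
    · have h7' : (7 : ℝ) ≤ M := by exact_mod_cast h7
      nlinarith
  have h5 : 9 * ((M : ℝ) + 1) / (8 * m) ≤ 57 / 100 - 5 / (6 * M) := by
    rw [div_le_iff₀ (by positivity)]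
    have h6 : (57 / 100 - 5 / (6 * (M : ℝ))) * (8 * m) = (456 * M * m - 2000 / 3 * m) / (100 * M) := by
      field_simp
      ring
    rw [h6, le_div_iff₀ (by positivity)]
    nlinarith
  have h6 : 5 / (6 * (M : ℝ)) ≤ 57 / 100 - 9 * ((M : ℝ) + 1) / (8 * m) := by linarith
  have h7 : 3 * (M : ℝ) / 2 ≤ q := by linarith
  calc (5 / 4 : ℝ) = (3 * M / 2) * (5 / (6 * (M : ℝ))) := by
        field_simp
        norm_num
    _ ≤ q * (57 / 100 - 9 * ((M : ℝ) + 1) / (8 * m)) := by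
        apply mul_le_mul h7 h6 (by positivity) (by linarith)

/-- the same for `M = 2` -/
theorem final_two (n q : ℕ) (h23 : 23 ≤ n) (hq : 3 ≤ q) : 5 / 4 / (n : ℝ) ^ 2 ≤
      q * (57 / 100 / (n : ℝ) ^ 2) - 2 * q / (4 * ((n : ℝ) - 2 - 2 * 2) *
        ((n : ℝ) - 1 - 2) ^ 2) := by
  have hn : (23 : ℝ) ≤ n := by exact_mod_cast h23
  have hq3 : (3 : ℝ) ≤ q := by exact_mod_cast hq
  have h2 : 2 / (4 * ((n : ℝ) - 2 - 2 * 2) * ((n : ℝ) - 1 - 2) ^ 2) ≤ 1 / 10 / (n : ℝ) ^ 2 := by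
    have h3 : 0 < 4 * ((n : ℝ) - 2 - 2 * 2) * ((n : ℝ) - 1 - 2) ^ 2 := by
      apply mul_pos
      · linarith
      · apply pow_pos
        linarith
    rw [div_le_div_iff₀ h3 (by positivity)]
    obtain ⟨t, ht⟩ : ∃ t : ℝ, (n : ℝ) = t + 23 := ⟨(n : ℝ) - 23, by ring⟩
    have ht0 : 0 ≤ t := by linarith
    rw [ht]
    nlinarith [pow_nonneg ht0 3, pow_nonneg ht0 2]
  have h3 : 2 * q / (4 * ((n : ℝ) - 2 - 2 * 2) * ((n : ℝ) - 1 - 2) ^ 2) ≤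
      q * (1 / 10 / (n : ℝ) ^ 2) := by
    calc 2 * q / (4 * ((n : ℝ) - 2 - 2 * 2) * ((n : ℝ) - 1 - 2) ^ 2) =
        q * (2 / (4 * ((n : ℝ) - 2 - 2 * 2) * ((n : ℝ) - 1 - 2) ^ 2)) := by ring
      _ ≤ _ := mul_le_mul_of_nonneg_left h2 (by linarith)
  have h4 : q * (57 / 100 / (n : ℝ) ^ 2) - q * (1 / 10 / (n : ℝ) ^ 2) - 5 / 4 / (n : ℝ) ^ 2 =
      (47 / 100 * q - 5 / 4) / (n : ℝ) ^ 2 := by
    field_simp
    ring
  have h5 : 0 ≤ (47 / 100 * (q : ℝ) - 5 / 4) / (n : ℝ) ^ 2 := by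
    apply div_nonneg _ (by positivity)
    linarith
  linarith

/-- the scalar inequality of the block NC, `n ≥ 23` -/
theorem scalar_sum {V : Type} [Fintype V] [DecidableEq V] (f : V → ℕ) (n q M : ℕ) (hodd : Odd n)
    (h23 : 23 ≤ n) (hf : ∀ v, Even (f v)) (hsum : ∑ v, f v = 2 * q) (h2q : 2 * q + 3 ≤ n)
    (h3M : 3 * M ≤ 2 * q) (h2M : 2 ≤ M) (hM : ∀ v, f v ≤ M) (v₀ : V) (N : Finset V)
    (hv : f v₀ = M) (hN : N.card = M) (hvN : v₀ ∉ N) (h2 : ∀ u ∈ N, 2 ≤ f u) (A : ℕ → ℝ)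
    (hΔ : ∀ d : ℕ, Even d → 18 ≤ d → d ≤ n - 1 →
      1 / 2 * (1 / ((d : ℝ) - 1) + 1 / ((d : ℝ) - 2)) + 57 / 100 / ((d : ℝ) + 1) ^ 2 ≤
        A (d - 2) - A d) :
    ∑ v, (1 / 2 * ∑ k ∈ Icc 1 (f v), 1 / ((n : ℝ) - 1 - k) +
      (f v : ℝ) * ((f v : ℝ) - 1) / (4 * ((n : ℝ) - 2 - 2 * (M : ℝ)) *
        ((n : ℝ) - 1 - (M : ℝ)) ^ 2)) + 5 / 4 / (n : ℝ) ^ 2 ≤
      ∑ v, (A (n - 1 - f v) - A (n - 1)) := by
  have hΔ' : ∀ d : ℕ, Even d → n - 1 - M < d → d ≤ n - 1 →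
      1 / 2 * (1 / ((d : ℝ) - 1) + 1 / ((d : ℝ) - 2)) + 57 / 100 / (n : ℝ) ^ 2 ≤
        A (d - 2) - A d := by
    intro d hd h3 h4
    have h5 : 18 ≤ d := by
      obtain ⟨k, hk⟩ := hd
      omega
    refine le_trans ?_ (hΔ d hd h5 h4)
    have h6 : (d : ℝ) + 1 ≤ n := by
      have : d + 1 ≤ n := by omega
      exact_mod_cast this
    have h7 : (57 / 100 : ℝ) / (n : ℝ) ^ 2 ≤ 57 / 100 / ((d : ℝ) + 1) ^ 2 := by
      apply div_le_div_of_nonneg_left (by norm_num) (by positivity)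
      exact pow_le_pow_left₀ (by positivity) h6 2
    linarith
  rcases Nat.lt_or_ge M 4 with h4 | h4
  · have hM2 : M = 2 := by
      have h5 := hf v₀
      rw [hv] at h5
      obtain ⟨k, hk⟩ := h5
      omega
    subst hM2
    have hS : ∑ v, (f v : ℝ) * ((f v : ℝ) - 1) ≤ 2 * q := by
      have hs : (∑ v, (f v : ℝ)) = 2 * q := by exact_mod_cast hsum
      rw [← hs]
      apply sum_le_sum
      intro v _
      have h5 : (f v : ℝ) ≤ 2 := by exact_mod_cast hM v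
      have h6 : (0 : ℝ) ≤ f v := Nat.cast_nonneg _
      nlinarith
    have h5 := scalar_gen f n q 2 (57 / 100) (2 * q) hodd hf hsum hM (by omega) hS A
      hΔ'
    have h6 := final_two n q h23 (by omega)
    push_cast at h5 ⊢
    linarith
  · have hS := sum_sq_le f v₀ N M q hv hN hvN h2 hM hsum
    have h5 := scalar_gen f n q M (57 / 100) _ hodd hf hsum hM (by omega) hS A
      hΔ'
    have h6 := second_order n q M h2q h3M
    have h7 := final_le n q M h23 h2q h3M h4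
    linarith

/-- the scalar inequality of the block NC for small `n`, with a general constant -/
theorem scalar_small {V : Type} [Fintype V] [DecidableEq V] (f : V → ℕ) (n q M : ℕ) (κ ε : ℝ)
    (hodd : Odd n)
    (hf : ∀ v, Even (f v)) (hsum : ∑ v, f v = 2 * q) (h2q : 2 * q + 3 ≤ n)
    (h3M : 3 * M ≤ 2 * q) (hq : 3 ≤ q) (hM : ∀ v, f v ≤ M) (v₀ : V) (N : Finset V)
    (hv : f v₀ = M) (hN : N.card = M) (hvN : v₀ ∉ N) (h2 : ∀ u ∈ N, 2 ≤ f u) (A : ℕ → ℝ)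
    (hΔ : ∀ d : ℕ, Even d → n - 1 - M < d → d ≤ n - 1 →
      1 / 2 * (1 / ((d : ℝ) - 1) + 1 / ((d : ℝ) - 2)) + κ / (n : ℝ) ^ 2 ≤ A (d - 2) - A d)
    (hε : ε ≤ κ - 9 * ((M : ℝ) + 1) / (8 * ((n : ℝ) - 3))) :
    ∑ v, (1 / 2 * ∑ k ∈ Icc 1 (f v), 1 / ((n : ℝ) - 1 - k) +
      (f v : ℝ) * ((f v : ℝ) - 1) / (4 * ((n : ℝ) - 2 - 2 * (M : ℝ)) *
        ((n : ℝ) - 1 - (M : ℝ)) ^ 2)) + ε * q / (n : ℝ) ^ 2 ≤
      ∑ v, (A (n - 1 - f v) - A (n - 1)) := by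
  have hS := sum_sq_le f v₀ N M q hv hN hvN h2 hM hsum
  have h5 := scalar_gen f n q M κ _ hodd hf hsum hM (by omega) hS A hΔ
  have h6 := second_order n q M h2q h3M
  have hn : (0 : ℝ) < n := by
    have : 0 < n := by omega
    exact_mod_cast this
  have hq0 : (0 : ℝ) ≤ q := Nat.cast_nonneg q
  have h7 : ε * q / (n : ℝ) ^ 2 ≤ q * (κ / (n : ℝ) ^ 2) -
      q * (9 * ((M : ℝ) + 1) / (8 * ((n : ℝ) - 3)) / (n : ℝ) ^ 2) := by
    have e1 : q * (κ / (n : ℝ) ^ 2) -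
        q * (9 * ((M : ℝ) + 1) / (8 * ((n : ℝ) - 3)) / (n : ℝ) ^ 2) =
        ((κ - 9 * ((M : ℝ) + 1) / (8 * ((n : ℝ) - 3))) * q) / (n : ℝ) ^ 2 := by
      ring
    rw [e1]
    apply div_le_div_of_nonneg_right _ (by positivity)
    exact mul_le_mul_of_nonneg_right hε hq0
  linarith

end MP_a3e05c_co.NCS
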