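import Mathlib
import Pool.Agent.Lib.MP_a3e05c_co.NC.Defs
import Pool.Agent.Lib.MP_a3e05c_co.NCS.EvenG
import Pool.Agent.Lib.MP_a3e05c_co.NCS.Sum

/-! EULER (MP_a3e05c_co), block NC: assembly of the near clique bound from the arc ratio, the
outer parts and the bounds for the complete graphs. -/

open Finset Real

namespace MP_a3e05c_co.NC

variable {V : Type} [Fintype V] [DecidableEq V]

/-- the logic of the comparison; `ZK`, `ZG` are the arc integrals, `oK`, `oG` the outer parts -/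
theorem assemble_real {X PK PG oK oG ZK ZG c ε : ℝ} (hc : 0 < c) (hX : 0 ≤ X) (hoG : 0 ≤ oG)
    (h1 : ZK ≤ c * (PK + oK)) (h2 : c * (PG - oG) ≤ ZG) (harc : exp (-X) * ZG ≤ ZK)
    (hPK : 0 ≤ PK) (hout : oK + oG ≤ ε * PK) : PG ≤ exp (X + ε) * PK := by
  have h3 : exp (-X) * (c * (PG - oG)) ≤ c * (PK + oK) :=
    (mul_le_mul_of_nonneg_left h2 (exp_pos _).le).trans (harc.trans h1)
  have h4 : exp (-X) * (PG - oG) ≤ PK + oK := by
    have h5 : c * (exp (-X) * (PG - oG)) ≤ c * (PK + oK) := by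
      calc c * (exp (-X) * (PG - oG)) = exp (-X) * (c * (PG - oG)) := by ring
        _ ≤ _ := h3
    exact le_of_mul_le_mul_left h5 hc
  have h5 : PG - oG ≤ exp X * (PK + oK) := by
    have h6 := mul_le_mul_of_nonneg_left h4 (exp_pos X).le
    have h7 : exp X * (exp (-X) * (PG - oG)) = PG - oG := by
      rw [← mul_assoc, ← exp_add, add_neg_cancel, exp_zero, one_mul]
    rwa [h7] at h6
  have hX1 : 1 ≤ exp X := one_le_exp hX
  have h6 : PG ≤ exp X * (PK + (oK + oG)) := by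
    have : oG ≤ exp X * oG := by nlinarith
    calc PG ≤ exp X * (PK + oK) + oG := by linarith
      _ ≤ exp X * (PK + oK) + exp X * oG := by linarith
      _ = _ := by ring
  have h7 : PK + (oK + oG) ≤ exp ε * PK := by
    have h8 := add_one_le_exp ε
    nlinarith
  calc PG ≤ exp X * (PK + (oK + oG)) := h6
    _ ≤ exp X * (exp ε * PK) := mul_le_mul_of_nonneg_left h7 (exp_pos X).le
    _ = exp (X + ε) * PK := by rw [exp_add]; ring

theorem XF_nonneg (F : Finset (Sym2 V)) (M : ℕ) (hM : ∀ v, fd F v ≤ M)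
    (h : 2 * M + 2 < Fintype.card V) (hev : ∀ v, Even (fd F v)) : 0 ≤ XF F M := by
  have hM' : 2 * (M : ℝ) + 2 < Fintype.card V := by exact_mod_cast h
  unfold XF
  apply sum_nonneg
  intro v _
  have hfM : (fd F v : ℝ) ≤ M := by exact_mod_cast hM v
  have h0 : (0 : ℝ) ≤ fd F v := Nat.cast_nonneg _
  apply add_nonneg
  · apply mul_nonneg (by norm_num)
    apply sum_nonneg
    intro k hk
    rw [mem_Icc] at hk
    apply one_div_nonneg.2
    have : (k : ℝ) ≤ fd F v := by exact_mod_cast hk.2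
    linarith
  · apply div_nonneg
    · rcases Nat.eq_zero_or_pos (fd F v) with h1 | h1
      · rw [h1]
        simp
      · have h2 : (1 : ℝ) ≤ fd F v := by exact_mod_cast h1
        apply mul_nonneg h0
        linarith
    · apply mul_nonneg
      · linarith
      · positivity

theorem exists_max (F : Finset (Sym2 V)) (hF : F ⊆ KE V) (hev : ∀ v, Even (fd F v))
    (hne : F.Nonempty) : ∃ (v₀ : V) (N : Finset V), (∀ v, fd F v ≤ fd F v₀) ∧ 2 ≤ fd F v₀ ∧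
      3 * fd F v₀ ≤ 2 * F.card ∧ N.card = fd F v₀ ∧ v₀ ∉ N ∧ ∀ u ∈ N, 2 ≤ fd F u := by
  have hne' := hne
  obtain ⟨e, he⟩ := hne
  induction e using Sym2.ind with
  | _ x y =>
    have h1 : 0 < fd F x := fd_pos_of_mem he (Sym2.mem_mk_left x y)
    haveI : Nonempty V := ⟨x⟩
    obtain ⟨v₀, hv₀⟩ := Finite.exists_max (fd F)
    obtain ⟨N, h2, h3, h4⟩ := exists_nbr hF hev v₀
    refine ⟨v₀, N, hv₀, ?_, three_fd_le hF hev v₀, h2, h3, h4⟩
    have h5 := hv₀ x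
    obtain ⟨k, hk⟩ := hev v₀
    omega

/-- the near clique bound for `n ≥ 23` -/
theorem near_clique_abs (F : Finset (Sym2 V)) (hF : F ⊆ KE V) (hev : ∀ v, Even (fd F v))
    (hne : F.Nonempty) (n : ℕ) (hcard : Fintype.card V = n) (hodd : Odd n) (h23 : 23 ≤ n)
    (h2q : 2 * F.card + 3 ≤ n) (A : ℕ → ℝ)
    (hΔ : ∀ d : ℕ, Even d → 18 ≤ d → d ≤ n - 1 →
      1 / 2 * (1 / ((d : ℝ) - 1) + 1 / ((d : ℝ) - 2)) + 57 / 100 / ((d : ℝ) + 1) ^ 2 ≤
        A (d - 2) - A d)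
    {PK PG oK oG ZK ZG c : ℝ} (hc : 0 < c) (hoG : 0 ≤ oG)
    (hPK : PK = exp (n * A (n - 1)))
    (h1 : ZK ≤ c * (PK + oK)) (h2 : c * (PG - oG) ≤ ZG)
    (harc : ∀ M : ℕ, (∀ v, fd F v ≤ M) → 2 * M + 2 < Fintype.card V →
      exp (-XF F M) * ZG ≤ ZK)
    (hout : oK + oG ≤ 5 / 4 / (n : ℝ) ^ 2 * PK) :
    PG ≤ exp (∑ v, A (n - 1 - fd F v)) := by
  have hsum := sum_fd hF
  obtain ⟨v₀, N, hM, h2M, h3M, hNc, hvN, hN2⟩ := exists_max F hF hev hne
  have hMn : 2 * fd F v₀ + 2 < Fintype.card V := by omega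
  have hX := XF_nonneg F _ hM hMn hev
  have h3 := assemble_real hc hX hoG h1 h2 (harc _ hM hMn) (by rw [hPK]; exact (exp_pos _).le) hout
  have h5 := NCS.scalar_sum (fd F) n F.card (fd F v₀) hodd h23 hev hsum h2q h3M h2M hM v₀ N rfl
    hNc hvN hN2 A hΔ
  refine h3.trans ?_
  rw [hPK, ← exp_add]
  apply exp_le_exp.2
  unfold XF
  rw [hcard]
  rw [sum_sub_distrib, sum_const, card_univ, hcard, nsmul_eq_mul] at h5
  linarith

/-- the near clique bound for small `n`, with the constant `κ` from exact values -/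
theorem near_clique_small (F : Finset (Sym2 V)) (hF : F ⊆ KE V) (hev : ∀ v, Even (fd F v))
    (hne : F.Nonempty) (n : ℕ) (hcard : Fintype.card V = n) (hodd : Odd n)
    (h2q : 2 * F.card + 3 ≤ n) (A : ℕ → ℝ) (κ ε : ℝ)
    (hΔ : ∀ d : ℕ, Even d → 2 * n ≤ 3 * d → d ≤ n - 1 →
      1 / 2 * (1 / ((d : ℝ) - 1) + 1 / ((d : ℝ) - 2)) + κ / (n : ℝ) ^ 2 ≤ A (d - 2) - A d)
    {PK PG oK oG ZK ZG c : ℝ} (hc : 0 < c) (hoG : 0 ≤ oG)
    (hPK : PK = exp (n * A (n - 1)))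
    (h1 : ZK ≤ c * (PK + oK)) (h2 : c * (PG - oG) ≤ ZG)
    (harc : ∀ M : ℕ, (∀ v, fd F v ≤ M) → 2 * M + 2 < Fintype.card V →
      exp (-XF F M) * ZG ≤ ZK)
    (hε : ∀ M : ℕ, Even M → 3 * M + 3 ≤ n → ε ≤ κ - 9 * ((M : ℝ) + 1) / (8 * ((n : ℝ) - 3)))
    (hout : oK + oG ≤ ε * F.card / (n : ℝ) ^ 2 * PK) :
    PG ≤ exp (∑ v, A (n - 1 - fd F v)) := by
  have hsum := sum_fd hF
  have hq := three_le_card hF hev hne
  obtain ⟨v₀, N, hM, h2M, h3M, hNc, hvN, hN2⟩ := exists_max F hF hev hne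
  have hMn : 2 * fd F v₀ + 2 < Fintype.card V := by omega
  have hX := XF_nonneg F _ hM hMn hev
  have h3 := assemble_real hc hX hoG h1 h2 (harc _ hM hMn) (by rw [hPK]; exact (exp_pos _).le) hout
  have h5 := NCS.scalar_small (fd F) n F.card (fd F v₀) κ ε hodd hev hsum h2q h3M hq hM v₀ N rfl
    hNc hvN hN2 A (fun d hd h6 h7 => hΔ d hd (by omega) h7) (hε _ (hev v₀) (by omega))
  refine h3.trans ?_
  rw [hPK, ← exp_add]
  apply exp_le_exp.2
  unfold XF
  rw [hcard]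
  rw [sum_sub_distrib, sum_const, card_univ, hcard, nsmul_eq_mul] at h5
  linarith

end MP_a3e05c_co.NC
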