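import Mathlib
import Pool.Agent.Lib.MP_a3e05c_co.NCS.Delta

/-! EULER (MP_a3e05c_co), block NC, scalar part: the difference of the main terms of two
consecutive even degrees. -/

open Finset Filter Topology Real

namespace MP_a3e05c_co.NCS

theorem log_19 : (294 / 100 : ℝ) ≤ log 19 := by
  have a1 := le_log_one_add_of_nonneg (x := 3 / 16) (by norm_num)
  have a3 := log_two_gt_d9
  have h : log (19 : ℝ) = 4 * log 2 + log (1 + 3 / 16) := by
    have h1 : (4 : ℝ) * log 2 = log (2 ^ 4) := by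
      rw [log_pow]
      norm_num
    rw [h1, ← log_mul (by norm_num) (by norm_num)]
    norm_num
  rw [h]
  norm_num at a1 a3 ⊢
  linarith

/-- lower bound for the difference of the main terms, `n ≥ 19` -/
theorem delta_mainL (n : ℝ) (hn : 19 ≤ n) :
    1 / 2 * (1 / (n - 2) + 1 / (n - 3)) + 57 / 100 / n ^ 2 ≤
      mainR (n - 2) / (n - 2) - mainR n / n := by
  have hn0 : 0 < n := by linarith
  have hn1 : 0 < n - 1 := by linarith
  have hn2 : 0 < n - 2 := by linarith
  have hn3 : 0 < n - 3 := by linarith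
  have hp := log_pi_half
  have hl : (294 / 100 : ℝ) ≤ log n := log_19.trans (log_le_log (by norm_num) hn)
  -- the difference of the logarithms
  have hδ : 2 / (n - 1) ≤ log n - log (n - 2) := by
    have h1 := le_log_one_add_of_nonneg (x := 2 / (n - 2)) (by positivity)
    have h2 : 1 + 2 / (n - 2) = n / (n - 2) := by
      field_simp
      ring
    have h3 : 2 * (2 / (n - 2)) / (2 / (n - 2) + 2) = 2 / (n - 1) := by
      have h4 : 2 / (n - 2) + 2 = 2 * (n - 1) / (n - 2) := by
        field_simp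
        ring
      rw [h4]
      field_simp
    rw [h2, log_div hn0.ne' hn2.ne', h3] at h1
    exact h1
  rw [mainR_div (n - 2) hn2, mainR_div n hn0]
  set ℓ := log n with hℓ
  set δ := ℓ - log (n - 2) with hδd
  set p := log (π / 2) with hpd
  have e2 : log (n - 2) = ℓ - δ := by rw [hδd]; ring
  rw [e2]
  have hc : 0 ≤ 1 / 2 - 1 / (n - 2) := by
    have : 1 / (n - 2) ≤ 1 / 2 := one_div_le_one_div_of_le (by norm_num) (by linarith)
    linarith
  have h1 := mul_le_mul_of_nonneg_right hδ hc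
  have h4 : 0 ≤ 1 / (n - 2) - 1 / n := by
    have : 1 / n ≤ 1 / (n - 2) := one_div_le_one_div_of_le hn2 (by linarith)
    linarith
  have h3 := mul_le_mul_of_nonneg_right hl h4
  have h5 := mul_le_mul_of_nonneg_right hp h4
  have key : -(1 / 2) * (ℓ - δ + p) + (ℓ - δ + p / 2 - 1 / 2) / (n - 2) -
      (-(1 / 2) * (ℓ + p) + (ℓ + p / 2 - 1 / 2) / n) =
      δ * (1 / 2 - 1 / (n - 2)) + ℓ * (1 / (n - 2) - 1 / n) +
        p * (1 / (n - 2) - 1 / n) / 2 - (1 / (n - 2) - 1 / n) / 2 := by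
    field_simp
    ring
  rw [key]
  have h6 : 2 / (n - 1) * (1 / 2 - 1 / (n - 2)) +
      294 / 100 * (1 / (n - 2) - 1 / n) +
      45 / 100 * (1 / (n - 2) - 1 / n) / 2 - (1 / (n - 2) - 1 / n) / 2 -
      (1 / 2 * (1 / (n - 2) + 1 / (n - 3)) + 57 / 100 / n ^ 2) =
      (342 + 972 * n - 840 * n ^ 2 + 126 * n ^ 3) / (100 * n ^ 2 * (n - 1) * (n - 2) * (n - 3)) := by
    field_simp
    ring
  have h7 : 0 ≤ (342 + 972 * n - 840 * n ^ 2 + 126 * n ^ 3) /
      (100 * n ^ 2 * (n - 1) * (n - 2) * (n - 3)) := by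
    apply div_nonneg _ (by positivity)
    obtain ⟨t, rfl⟩ : ∃ t, n = t + 19 := ⟨n - 19, by ring⟩
    have ht : 0 ≤ t := by linarith
    nlinarith [pow_nonneg ht 3, pow_nonneg ht 2]
  linarith

end MP_a3e05c_co.NCS
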