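import Mathlib
import Pool.Agent.Lib.MP_a3e05c_co.NCS.Sum
import Pool.Agent.Lib.MP_a3e05c_co.NCS.DeltaL

/-! EULER (MP_a3e05c_co), block NC, scalar part: the inequality for the closed near cliques in
terms of the bounds for the complete graphs. -/

open Finset Filter Topology Real

namespace MP_a3e05c_co.NCS

/-- what is left for the outer parts (`n` vertices, `q` missing edges, `M` the largest number of
missing edges at a vertex) -/
noncomputable def slack (n q M : ℕ) : ℝ :=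
  if M = 2 then q * (53 / 100 / (n : ℝ) ^ 2)
  else q * ((57 / 100 - 9 * ((M : ℝ) + 1) / (8 * ((n : ℝ) - 3))) / (n : ℝ) ^ 2)

theorem two_le (n q : ℕ) (h23 : 23 ≤ n) : q * (53 / 100 / (n : ℝ) ^ 2) ≤
      q * (57 / 100 / (n : ℝ) ^ 2) - 2 * q / (4 * ((n : ℝ) - 2 - 2 * 2) *
        ((n : ℝ) - 1 - 2) ^ 2) := by
  have hn : (23 : ℝ) ≤ n := by exact_mod_cast h23
  have h2 : 2 / (4 * ((n : ℝ) - 2 - 2 * 2) * ((n : ℝ) - 1 - 2) ^ 2) ≤ 4 / 100 / (n : ℝ) ^ 2 := by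
    have h3 : 0 < 4 * ((n : ℝ) - 2 - 2 * 2) * ((n : ℝ) - 1 - 2) ^ 2 := by
      apply mul_pos
      · linarith
      · apply pow_pos
        linarith
    rw [div_le_div_iff₀ h3 (by positivity)]
    obtain ⟨t, ht⟩ : ∃ t : ℝ, (n : ℝ) = t + 23 := ⟨(n : ℝ) - 23, by ring⟩
    have ht0 : 0 ≤ t := by linarith
    rw [ht]
    nlinarith [pow_nonneg ht0 3, pow_nonneg ht0 2]
  have h3 : 2 * q / (4 * ((n : ℝ) - 2 - 2 * 2) * ((n : ℝ) - 1 - 2) ^ 2) ≤
      q * (4 / 100 / (n : ℝ) ^ 2) := by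
    calc 2 * q / (4 * ((n : ℝ) - 2 - 2 * 2) * ((n : ℝ) - 1 - 2) ^ 2) =
        q * (2 / (4 * ((n : ℝ) - 2 - 2 * 2) * ((n : ℝ) - 1 - 2) ^ 2)) := by ring
      _ ≤ _ := mul_le_mul_of_nonneg_left h2 (Nat.cast_nonneg q)
  have h4 : q * (57 / 100 / (n : ℝ) ^ 2) - q * (4 / 100 / (n : ℝ) ^ 2) =
      q * (53 / 100 / (n : ℝ) ^ 2) := by
    ring
  linarith

/-- the scalar inequality of the block NC, `n ≥ 23`, with the full slack -/
theorem scalar_sum' {V : Type} [Fintype V] [DecidableEq V] (f : V → ℕ) (n q M : ℕ) (hodd : Odd n)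
    (h23 : 23 ≤ n) (hf : ∀ v, Even (f v)) (hsum : ∑ v, f v = 2 * q) (h2q : 2 * q + 3 ≤ n)
    (h3M : 3 * M ≤ 2 * q) (hM : ∀ v, f v ≤ M) (v₀ : V) (N : Finset V)
    (hv : f v₀ = M) (hN : N.card = M) (hvN : v₀ ∉ N) (h2 : ∀ u ∈ N, 2 ≤ f u) (A : ℕ → ℝ)
    (hΔ : ∀ d : ℕ, Even d → 18 ≤ d → d ≤ n - 1 →
      1 / 2 * (1 / ((d : ℝ) - 1) + 1 / ((d : ℝ) - 2)) + 57 / 100 / ((d : ℝ) + 1) ^ 2 ≤
        A (d - 2) - A d) :
    ∑ v, (1 / 2 * ∑ k ∈ Icc 1 (f v), 1 / ((n : ℝ) - 1 - k) +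
      (f v : ℝ) * ((f v : ℝ) - 1) / (4 * ((n : ℝ) - 2 - 2 * (M : ℝ)) *
        ((n : ℝ) - 1 - (M : ℝ)) ^ 2)) + slack n q M ≤
      ∑ v, (A (n - 1 - f v) - A (n - 1)) := by
  have hΔ' : ∀ d : ℕ, Even d → n - 1 - M < d → d ≤ n - 1 →
      1 / 2 * (1 / ((d : ℝ) - 1) + 1 / ((d : ℝ) - 2)) + 57 / 100 / (n : ℝ) ^ 2 ≤
        A (d - 2) - A d := by
    intro d hd h3 h4
    have h5 : 18 ≤ d := by
      obtain ⟨k, hk⟩ := hd
      omega
    refine le_trans ?_ (hΔ d hd h5 h4)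
    have h6 : (d : ℝ) + 1 ≤ n := by
      have : d + 1 ≤ n := by omega
      exact_mod_cast this
    have h7 : (57 / 100 : ℝ) / (n : ℝ) ^ 2 ≤ 57 / 100 / ((d : ℝ) + 1) ^ 2 := by
      apply div_le_div_of_nonneg_left (by norm_num) (by positivity)
      exact pow_le_pow_left₀ (by positivity) h6 2
    linarith
  unfold slack
  by_cases hM2 : M = 2
  · rw [if_pos hM2]
    subst hM2
    have hS : ∑ v, (f v : ℝ) * ((f v : ℝ) - 1) ≤ 2 * q := by
      have hs : (∑ v, (f v : ℝ)) = 2 * q := by exact_mod_cast hsum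
      rw [← hs]
      apply sum_le_sum
      intro v _
      have h5 : (f v : ℝ) ≤ 2 := by exact_mod_cast hM v
      have h6 : (0 : ℝ) ≤ f v := Nat.cast_nonneg _
      nlinarith
    have h5 := scalar_gen f n q 2 (57 / 100) (2 * q) hodd hf hsum hM (by omega) hS A
      hΔ'
    have h6 := two_le n q h23
    push_cast at h5 ⊢
    linarith
  · rw [if_neg hM2]
    have hS := sum_sq_le f v₀ N M q hv hN hvN h2 hM hsum
    have h5 := scalar_gen f n q M (57 / 100) _ hodd hf hsum hM (by omega) hS A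
      hΔ'
    have h6 := second_order n q M h2q h3M
    have h7 : q * ((57 / 100 - 9 * ((M : ℝ) + 1) / (8 * ((n : ℝ) - 3))) / (n : ℝ) ^ 2) =
        q * (57 / 100 / (n : ℝ) ^ 2) - q * (9 * ((M : ℝ) + 1) / (8 * ((n : ℝ) - 3)) / (n : ℝ) ^ 2) := by
      ring
    linarith

/-- **The scalar inequality of the block NC** from the bounds for the complete graphs. -/
theorem scalar_final {V : Type} [Fintype V] [DecidableEq V] (f : V → ℕ) (n q M : ℕ) (hodd : Odd n)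
    (h23 : 23 ≤ n) (hf : ∀ v, Even (f v)) (hsum : ∑ v, f v = 2 * q) (h2q : 2 * q + 3 ≤ n)
    (h3M : 3 * M ≤ 2 * q) (hM : ∀ v, f v ≤ M) (v₀ : V) (N : Finset V)
    (hv : f v₀ = M) (hN : N.card = M) (hvN : v₀ ∉ N) (h2 : ∀ u ∈ N, 2 ≤ f u) (A : ℕ → ℝ)
    (hL : ∀ d : ℕ, Even d → 16 ≤ d → d ≤ n - 1 → mainR ((d : ℝ) + 1) / ((d : ℝ) + 1) ≤ A d)
    (hU : A (n - 1) ≤ (mainR n + (log n / 2 + 1 / 20) / n) / n) :
    ∑ v, (1 / 2 * ∑ k ∈ Icc 1 (f v), 1 / ((n : ℝ) - 1 - k) +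
      (f v : ℝ) * ((f v : ℝ) - 1) / (4 * ((n : ℝ) - 2 - 2 * (M : ℝ)) *
        ((n : ℝ) - 1 - (M : ℝ)) ^ 2)) + slack n q M ≤
      ∑ v, (A (n - 1 - f v) - A (n - 1)) := by
  set B : ℕ → ℝ := fun d => if d = n - 1 then (mainR n + (log n / 2 + 1 / 20) / n) / n
    else mainR ((d : ℝ) + 1) / ((d : ℝ) + 1) with hB
  have en : ((n - 1 : ℕ) : ℝ) = (n : ℝ) - 1 := by
    rw [Nat.cast_sub (by omega)]
    norm_num
  have hn : (23 : ℝ) ≤ n := by exact_mod_cast h23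
  have h1 := scalar_sum' f n q M hodd h23 hf hsum h2q h3M hM v₀ N hv hN hvN h2 B (by
    intro d hd h18 hdn
    have h18' : (18 : ℝ) ≤ d := by exact_mod_cast h18
    have e2 : ((d - 2 : ℕ) : ℝ) = (d : ℝ) - 2 := by
      rw [Nat.cast_sub (by omega)]
      norm_num
    have hB2 : B (d - 2) = mainR ((d : ℝ) - 1) / ((d : ℝ) - 1) := by
      have h3 : d - 2 ≠ n - 1 := by omega
      rw [hB]
      simp only
      rw [if_neg h3, e2]
      have : (d : ℝ) - 2 + 1 = d - 1 := by ring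
      rw [this]
    have e3 : (d : ℝ) + 1 - 2 = d - 1 := by ring
    have e4 : (d : ℝ) + 1 - 3 = d - 2 := by ring
    rcases Nat.lt_or_ge d (n - 1) with h3 | h3
    · have hB1 : B d = mainR ((d : ℝ) + 1) / ((d : ℝ) + 1) := by
        rw [hB]
        simp only
        rw [if_neg (by omega)]
      rw [hB1, hB2]
      have h4 := delta_mainL ((d : ℝ) + 1) (by linarith)
      rw [e3, e4] at h4
      exact h4
    · have h5 : d = n - 1 := by omega
      have hdn' : (n : ℝ) = d + 1 := by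
        rw [h5, en]
        ring
      have hB1 : B d = (mainR (d + 1) + (log (d + 1) / 2 + 1 / 20) / (d + 1)) / (d + 1) := by
        rw [hB]
        simp only
        rw [if_pos h5, hdn']
      rw [hB1, hB2]
      have h4 := delta_main ((d : ℝ) + 1) (by linarith)
      rw [e3, e4] at h4
      exact h4)
  refine h1.trans (sum_le_sum fun v _ => ?_)
  rcases Nat.eq_zero_or_pos (f v) with h3 | h3
  · rw [h3]
    simp
  · have h4 := hM v
    obtain ⟨k, hk⟩ := hf v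
    have hev : Even (n - 1 - f v) := by
      obtain ⟨m, hm⟩ := hodd
      exact ⟨m - k, by omega⟩
    have h16 : 16 ≤ n - 1 - f v := by
      obtain ⟨j, hj⟩ := hev
      omega
    have h5 := hL (n - 1 - f v) hev h16 (by omega)
    have h6 : B (n - 1 - f v) = mainR (((n - 1 - f v : ℕ) : ℝ) + 1) / (((n - 1 - f v : ℕ) : ℝ) + 1) := by
      rw [hB]
      simp only
      rw [if_neg (by omega)]
    have h7 : B (n - 1) = (mainR n + (log n / 2 + 1 / 20) / n) / n := by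
      rw [hB]
      exact if_pos rfl
    rw [h6, h7]
    linarith

/-- the slack is at least `(5/4) / n²` -/
theorem slack_ge (n q M : ℕ) (h23 : 23 ≤ n) (hq : 3 ≤ q) (h2q : 2 * q + 3 ≤ n)
    (h3M : 3 * M ≤ 2 * q) (h2M : 2 ≤ M) (hMe : Even M) : 5 / 4 / (n : ℝ) ^ 2 ≤ slack n q M := by
  have hn : (23 : ℝ) ≤ n := by exact_mod_cast h23
  have hq3 : (3 : ℝ) ≤ q := by exact_mod_cast hq
  unfold slack
  by_cases hM2 : M = 2
  · rw [if_pos hM2]
    have h1 : (5 / 4 : ℝ) ≤ q * (53 / 100) := by linarith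
    calc 5 / 4 / (n : ℝ) ^ 2 ≤ q * (53 / 100) / (n : ℝ) ^ 2 :=
          div_le_div_of_nonneg_right h1 (by positivity)
      _ = _ := by ring
  · rw [if_neg hM2]
    have h4 : 4 ≤ M := by
      obtain ⟨k, hk⟩ := hMe
      omega
    have h7 := final_le n q M h23 h2q h3M h4
    have h8 : q * ((57 / 100 - 9 * ((M : ℝ) + 1) / (8 * ((n : ℝ) - 3))) / (n : ℝ) ^ 2) =
        q * (57 / 100 / (n : ℝ) ^ 2) - q * (9 * ((M : ℝ) + 1) / (8 * ((n : ℝ) - 3)) / (n : ℝ) ^ 2) := by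
      ring
    linarith

end MP_a3e05c_co.NCS
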