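import Pool.Agent.Lib.MP_a3e05c_co.KL.CliqueUp
import Pool.Agent.Lib.MP_a3e05c_co.NC.ArcE
import Pool.Agent.Lib.MP_a3e05c_co.NCS.Assemble
import Pool.Agent.Lib.MP_a3e05c_co.NCS.SumB
import Pool.Agent.Lib.MP_a3e05c_co.OUT.Torus

/-!
# EULER, block NC: the near clique bound in the notation of the key lemma
-/

open Finset MeasureTheory

namespace MP_a3e05c_co.NC

variable {V E : Type} [Fintype V] [DecidableEq V] [Fintype E] [DecidableEq E]

/-- the edges as unordered pairs -/
def es (hd : E → Bool → V) : Finset (Sym2 V) := univ.image fun e => s(hd e true, hd e false)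

theorem es_sub {hd : E → Bool → V} (hs : KL.Simple hd) : es hd ⊆ KE V := by
  intro e he
  unfold es at he
  rw [mem_image] at he
  obtain ⟨a, -, rfl⟩ := he
  rw [mem_KE, Sym2.mk_isDiag_iff]
  exact hs.1 a

theorem prod_es {hd : E → Bool → V} (hs : KL.Simple hd) (g : Sym2 V → ℝ) :
    ∏ e ∈ es hd, g e = ∏ e, g s(hd e true, hd e false) := by
  unfold es
  rw [prod_image fun a _ b _ h => hs.2 h]

theorem card_es {hd : E → Bool → V} (hs : KL.Simple hd) : (es hd).card = Fintype.card E := by
  unfold es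
  rw [card_image_of_injective _ hs.2, card_univ]

theorem fd_es {hd : E → Bool → V} (hs : KL.Simple hd) (v : V) : fd (es hd) v = KL.deg hd v := by
  unfold fd KL.deg es
  rw [filter_image, card_image_of_injective _ hs.2]
  congr 1
  ext e
  simp only [mem_filter, mem_univ, true_and, Sym2.mem_iff]
  constructor
  · rintro (h | h)
    · exact ⟨true, h.symm⟩
    · exact ⟨false, h.symm⟩
  · rintro ⟨b, h⟩
    cases b
    · exact Or.inr h.symm
    · exact Or.inl h.symm

theorem fd_KE (v : V) : fd (KE V) v = Fintype.card V - 1 := by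
  have h : (univ.erase v).card = Fintype.card V - 1 := by
    rw [card_erase_of_mem (mem_univ _), card_univ]
  rw [← h]
  unfold fd
  symm
  apply card_bij (fun u _ => s(v, u))
  · intro u hu
    rw [mem_erase] at hu
    rw [mem_filter, mem_KE, Sym2.mk_isDiag_iff]
    exact ⟨fun h => hu.1 h.symm, Sym2.mem_mk_left v u⟩
  · intro u _ u' _ h
    rw [Sym2.eq_iff] at h
    rcases h with h | h
    · exact h.2
    · exact h.2.trans h.1
  · intro e he
    rw [mem_filter, mem_KE] at he
    obtain ⟨u, rfl⟩ := Sym2.mem_iff_exists.1 he.2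
    refine ⟨u, ?_, rfl⟩
    rw [mem_erase]
    refine ⟨fun h => he.1 ?_, mem_univ _⟩
    rw [Sym2.mk_isDiag_iff]
    exact h.symm

theorem fd_sdiff {S : Finset (Sym2 V)} (hS : S ⊆ KE V) (v : V) :
    fd (KE V \ S) v + fd S v = Fintype.card V - 1 := by
  rw [← fd_KE v]
  unfold fd
  rw [← card_union_of_disjoint]
  · congr 1
    ext e
    simp only [mem_union, mem_filter, mem_sdiff]
    constructor
    · rintro (h | h)
      · exact ⟨h.1.1, h.2⟩
      · exact ⟨hS h.1, h.2⟩
    · intro h
      by_cases h1 : e ∈ S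
      · exact Or.inr ⟨h1, h.2⟩
      · exact Or.inl ⟨⟨h.1, h1⟩, h.2⟩
  · rw [disjoint_left]
    intro e h1 h2
    rw [mem_filter, mem_sdiff] at h1
    rw [mem_filter] at h2
    exact h1.1.2 h2.1

theorem card_KE : (KE V).card = Fintype.card V * (Fintype.card V - 1) / 2 := by
  have h1 := sum_fd (F := KE V) (Finset.Subset.refl _)
  rw [sum_congr rfl fun v _ => fd_KE v, sum_const, card_univ, smul_eq_mul] at h1
  omega

theorem ext_eq (b : V) (t : {v // v ≠ b} → ℝ) : OUT.ext b t = ext b t := by
  funext v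
  unfold OUT.ext ext
  by_cases h : v = b
  · rw [dif_neg (not_not.2 h), dif_pos h]
  · rw [dif_pos h, dif_neg h]

theorem box_eq (b : V) : OUT.box b = box b := by
  ext t
  unfold OUT.box box
  simp only [Set.mem_pi, Set.mem_univ, true_implies, Set.mem_Icc, Set.mem_ofPred_eq, abs_le]

/-- the torus formula -/
theorem torus_es {hd : E → Bool → V} (hs : KL.Simple hd) (hev : ∀ v, Even (KL.deg hd v)) (b : V) :
    ∫ t in box b, ∏ e ∈ es hd, cd (ext b t) e =
      Real.pi ^ (Fintype.card V - 1) * KL.PA hd univ := by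
  have h := OUT.torus hs.1 hev b
  rw [box_eq] at h
  unfold KL.PA
  rw [← h]
  congr 1
  funext t
  rw [prod_es hs, ext_eq]
  rfl

theorem box_compact (b : V) : IsCompact (box b) := by
  rw [← box_eq]
  unfold OUT.box
  exact isCompact_univ_pi fun _ => isCompact_Icc

theorem cd_continuous (b : V) (S : Finset (Sym2 V)) :
    Continuous fun t : {v // v ≠ b} → ℝ => ∏ e ∈ S, cd (ext b t) e := by
  apply continuous_finsetProd
  intro e _
  have hext : ∀ v, Continuous fun t : {v // v ≠ b} → ℝ => ext b t v := by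
    intro v
    unfold ext
    by_cases h : v = b
    · simp only [dif_pos h]
      exact continuous_const
    · simp only [dif_neg h]
      exact continuous_apply _
  induction e with
  | h u v => exact Real.continuous_cos.comp ((hext u).sub (hext v))

/-- the box is the disjoint union of the arc domain and the outer part -/
theorem box_split (b : V) (S : Finset (Sym2 V)) (hb : ∀ w, w ≠ b → s(b, w) ∈ S) :
    ∫ t in box b, ∏ e ∈ S, cd (ext b t) e =
      ZE b S + ∫ t in box b \ arcE b S, ∏ e ∈ S, cd (ext b t) e := by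
  have hsub : arcE b S ⊆ box b := by
    intro t ht v
    have h7 := ht s(b, v.1) (hb v.1 v.2)
    rw [ad_mk] at h7
    have h9 : ext b t b = 0 := dif_pos rfl
    have h10 : ext b t v.1 = t v := dif_neg v.2
    rw [h9, h10, zero_sub, abs_neg] at h7
    exact h7
  have hint : IntegrableOn (fun t : {v // v ≠ b} → ℝ => ∏ e ∈ S, cd (ext b t) e) (box b) :=
    (cd_continuous b S).continuousOn.integrableOn_compact (box_compact b)
  have h := setIntegral_sdiff (arcE_measurableSet b S) hint hsub
  unfold ZE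
  rw [h]
  ring

/-- the complete graph on `V`, in the format of the key lemma -/
noncomputable def hdV (V : Type) [Fintype V] [DecidableEq V] : {e // e ∈ KE V} → Bool → V :=
  fun e b => if b then (Quot.out e.1).1 else (Quot.out e.1).2

theorem hdV_mk (e : {e // e ∈ KE V}) : s(hdV V e true, hdV V e false) = e.1 := by
  unfold hdV
  simp only [if_true, Bool.false_eq_true, if_false]
  exact Quot.out_eq e.1

theorem hdV_simple : KL.Simple (hdV V) := by
  refine ⟨fun e h => ?_, fun e f h => ?_⟩
  · have h1 := mem_KE.1 e.2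
    apply h1
    rw [← hdV_mk e, Sym2.mk_isDiag_iff]
    exact h
  · apply Subtype.ext
    rw [← hdV_mk e, ← hdV_mk f]
    exact h

theorem es_hdV : es (hdV V) = KE V := by
  ext e
  unfold es
  rw [mem_image]
  constructor
  · rintro ⟨a, -, rfl⟩
    rw [hdV_mk]
    exact a.2
  · intro he
    exact ⟨⟨e, he⟩, mem_univ _, hdV_mk _⟩

theorem deg_hdV (v : V) : KL.deg (hdV V) v = Fintype.card V - 1 := by
  rw [← fd_es hdV_simple, es_hdV, fd_KE]

theorem closed_univ (hd : E → Bool → V) : KL.Closed hd univ := by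
  intro v _
  unfold KL.kk KL.deg KL.btw
  congr 1
  ext e
  simp

theorem PA_hdV [Nonempty V] : KL.PA (hdV V) univ = KL.PK (Fintype.card V) := by
  have h := KL.PA_clique hdV_simple (closed_univ (hdV V)) (fun v _ => by
    rw [deg_hdV, card_univ]
    have : 0 < Fintype.card V := Fintype.card_pos
    omega)
  rw [h, card_univ]

/-- **The near clique bound**, from the bound for the outer parts. -/
theorem near_clique_of_out {hd : E → Bool → V} (hs : KL.Simple hd)
    (hev : ∀ v, Even (KL.deg hd v)) {n : ℕ} (hcard : Fintype.card V = n) (hodd : Odd n)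
    (h23 : 23 ≤ n) (hlt : Fintype.card E < n * (n - 1) / 2)
    (h2q : 2 * (n * (n - 1) / 2 - Fintype.card E) + 3 ≤ n)
    (hL : ∀ m : ℕ, Odd m → 17 ≤ m → m ≤ n → Real.exp (NCS.mainR m) ≤ KL.PK m)
    (b : V) (hb : fd (KE V \ es hd) b = 0)
    (hout : |∫ t in box b \ arcE b (es hd), ∏ e ∈ es hd, cd (ext b t) e| +
        |∫ t in box b \ arc b, ∏ e ∈ KE V, cd (ext b t) e| ≤
      Real.pi ^ (n - 1) * (NCS.slack n (n * (n - 1) / 2 - Fintype.card E)
        (univ.sup fun v => fd (KE V \ es hd) v) * Real.exp (NCS.mainR n))) :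
    KL.PA hd univ ≤ Real.exp (∑ v, KL.AA (KL.deg hd v)) := by
  have hV : Nonempty V := ⟨b⟩
  set F : Finset (Sym2 V) := KE V \ es hd with hFdef
  have hF : F ⊆ KE V := sdiff_subset
  have hKF : KE V \ F = es hd := by
    rw [hFdef]
    exact Finset.sdiff_sdiff_eq_self (es_sub hs)
  have hFc : F.card = n * (n - 1) / 2 - Fintype.card E := by
    rw [hFdef, card_sdiff_of_subset (es_sub hs), card_KE, card_es hs, hcard]
  rw [← hFc] at h2q hout
  have hE : Even (n - 1) := by
    obtain ⟨k, hk⟩ := hodd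
    exact ⟨k, by omega⟩
  have hdeg : ∀ v, fd F v + KL.deg hd v = n - 1 := by
    intro v
    rw [← fd_es hs, hFdef, fd_sdiff (es_sub hs), hcard]
  have hevF : ∀ v, Even (fd F v) := by
    intro v
    have h1 := hdeg v
    have h2 := hev v
    obtain ⟨a, ha⟩ := hE
    obtain ⟨c, hc⟩ := h2
    exact ⟨a - c, by omega⟩
  have hne : F.Nonempty := by
    rw [← card_pos, hFc]
    omega
  obtain ⟨v₀, N, hM, h2M, h3M, hNc, hvN, hN2⟩ := exists_max F hF hevF hne
  have hsup : (univ.sup fun v => fd F v) = fd F v₀ := by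
    apply le_antisymm
    · exact Finset.sup_le fun v _ => hM v
    · exact Finset.le_sup (f := fun v => fd F v) (mem_univ v₀)
  rw [hsup] at hout
  have hMn : 2 * fd F v₀ + 2 < Fintype.card V := by omega
  have hX := XF_nonneg F _ hM hMn hevF
  -- the adjacency of the gauge vertex
  have hbadj : ∀ w, w ≠ b → s(b, w) ∈ es hd := by
    intro w hw
    rw [← hKF, mem_sdiff]
    refine ⟨?_, fun h1 => ?_⟩
    · rw [mem_KE, Sym2.mk_isDiag_iff]
      exact fun h => hw h.symm
    · have h2 := fd_pos_of_mem h1 (Sym2.mem_mk_left b w)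
      omega
  have hbadjK : ∀ w, w ≠ b → s(b, w) ∈ KE V := fun w hw => es_sub hs (hbadj w hw)
  -- the integrals
  have harcE : arcE b (KE V) = arc b := by
    refine Set.Subset.antisymm (fun t ht u v => ?_) (arc_subset_arcE b _)
    by_cases huv : u = v
    · rw [huv, sub_self, abs_zero]
      exact (div_pos Real.pi_pos two_pos).le
    · exact ht s(u, v) (mem_KE.mpr (by simpa using huv))
  have hG := box_split b (es hd) hbadj
  have hK := box_split b (KE V) hbadjK
  rw [torus_es hs hev b] at hG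
  have hTK := torus_es (hd := hdV V) hdV_simple (fun v => by
    rw [deg_hdV, hcard]
    exact hE) b
  rw [es_hdV] at hTK
  rw [hTK, PA_hdV, harcE, ZE_KE] at hK
  rw [hcard] at hG hK
  set c : ℝ := Real.pi ^ (n - 1) with hc
  have hc0 : 0 < c := pow_pos Real.pi_pos _
  set IG : ℝ := ∫ t in box b \ arcE b (es hd), ∏ e ∈ es hd, cd (ext b t) e with hIG
  set IK : ℝ := ∫ t in box b \ arc b, ∏ e ∈ KE V, cd (ext b t) e with hIK
  have harc := arc_ratioEZ b hMn F hF hb hM
  rw [hKF] at harc
  have hPKlow := hL n hodd (by omega) le_rfl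
  -- the slack is nonnegative
  have hq3 := three_le_card hF hevF hne
  have hs0 : 0 ≤ NCS.slack n F.card (fd F v₀) := by
    refine le_trans ?_ (NCS.slack_ge n F.card (fd F v₀) h23 hq3 h2q h3M h2M (hevF v₀))
    positivity
  have h1 : Z b (KE V) ≤ c * (KL.PK n + |IK| / c) := by
    have h2 : c * (KL.PK n + |IK| / c) = c * KL.PK n + |IK| := by
      field_simp
    rw [h2]
    have h3 := neg_abs_le IK
    linarith
  have h2 : c * (KL.PA hd univ - |IG| / c) ≤ ZE b (es hd) := by
    have h3 : c * (KL.PA hd univ - |IG| / c) = c * KL.PA hd univ - |IG| := by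
      field_simp
    rw [h3]
    have h4 := le_abs_self IG
    linarith
  have hPK0 : 0 < KL.PK n := lt_of_lt_of_le (Real.exp_pos _) hPKlow
  have hout' : |IK| / c + |IG| / c ≤ NCS.slack n F.card (fd F v₀) * KL.PK n := by
    rw [← add_div, div_le_iff₀ hc0]
    calc |IK| + |IG| ≤ c * (NCS.slack n F.card (fd F v₀) * Real.exp (NCS.mainR n)) := by linarith
      _ ≤ c * (NCS.slack n F.card (fd F v₀) * KL.PK n) := by
        apply mul_le_mul_of_nonneg_left _ hc0.le
        exact mul_le_mul_of_nonneg_left hPKlow hs0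
      _ = _ := by ring
  have h3 := assemble_real hc0 hX (by positivity) h1 h2 harc hPK0.le hout'
  -- the scalar inequality
  have hn0 : (0 : ℝ) < n := by
    have : 0 < n := by omega
    exact_mod_cast this
  have hn1 : n - 1 + 1 = n := by omega
  have hAA : ∀ d : ℕ, Even d → 16 ≤ d → d ≤ n - 1 →
      NCS.mainR ((d : ℝ) + 1) / ((d : ℝ) + 1) ≤ KL.AA d := by
    intro d hd h16 hdn
    have h4 := hL (d + 1) (Even.add_one hd) (by omega) (by omega)
    have h5 : NCS.mainR ((d : ℝ) + 1) ≤ Real.log (KL.PK (d + 1)) := by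
      rw [Real.le_log_iff_exp_le (lt_of_lt_of_le (Real.exp_pos _) h4)]
      have e : ((d + 1 : ℕ) : ℝ) = (d : ℝ) + 1 := by push_cast; ring
      rw [← e]
      exact h4
    unfold KL.AA
    exact div_le_div_of_nonneg_right h5 (by positivity)
  have en : ((n - 1 : ℕ) : ℝ) = (n : ℝ) - 1 := by
    rw [Nat.cast_sub (by omega)]
    norm_num
  have hAU : KL.AA (n - 1) ≤ (NCS.mainR n + (Real.log n / 2 + 1 / 20) / n) / n := by
    have h4 := KL.PK_le_main hE (by omega : 20 ≤ n - 1)
    have e : ((n - 1 : ℕ) : ℝ) + 1 = n := by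
      rw [en]
      ring
    rw [hn1, e] at h4
    unfold KL.AA
    rw [hn1, e]
    exact div_le_div_of_nonneg_right h4 hn0.le
  have h5 := NCS.scalar_final (fd F) n F.card (fd F v₀) hodd h23 hevF (sum_fd hF) h2q h3M hM v₀ N
    rfl hNc hvN hN2 KL.AA hAA hAU
  have hPKe : KL.PK n = Real.exp (n * KL.AA (n - 1)) := by
    unfold KL.AA
    rw [hn1, en]
    have e : (n : ℝ) - 1 + 1 = n := by ring
    rw [e]
    have e2 : (n : ℝ) * (Real.log (KL.PK n) / n) = Real.log (KL.PK n) := by
      field_simp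
    rw [e2, Real.exp_log hPK0]
  have h6 : ∀ v, KL.deg hd v = n - 1 - fd F v := by
    intro v
    have := hdeg v
    omega
  refine h3.trans ?_
  rw [hPKe, ← Real.exp_add]
  apply Real.exp_le_exp.2
  simp only [h6]
  unfold XF
  rw [hcard]
  rw [sum_sub_distrib, sum_const, card_univ, hcard, nsmul_eq_mul] at h5
  linarith

/-- few missing edges do not cover all vertices -/
theorem exists_gauge {F : Finset (Sym2 V)} (hF : F ⊆ KE V) (h : 2 * F.card < Fintype.card V) :
    ∃ b, fd F b = 0 := by
  by_contra hcon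
  push Not at hcon
  have h1 : ∑ v : V, 1 ≤ ∑ v, fd F v := sum_le_sum fun v _ => Nat.pos_of_ne_zero (hcon v)
  rw [sum_fd hF, sum_const, card_univ, smul_eq_mul] at h1
  omega

/-- the bound for the outer parts, in the form proved in the block OUT -/
def OutBd (V : Type) [Fintype V] [DecidableEq V] : Prop :=
  ∀ F : Finset (Sym2 V), F ⊆ KE V → (∀ v, Even (fd F v)) → 3 ≤ F.card →
    2 * F.card + 3 ≤ Fintype.card V → ∀ b : V, fd F b = 0 →
      |∫ t in box b \ arcE b (KE V \ F), ∏ e ∈ KE V \ F, cd (ext b t) e| +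
        |∫ t in box b \ arc b, ∏ e ∈ KE V, cd (ext b t) e| ≤
      Real.pi ^ (Fintype.card V - 1) * (NCS.slack (Fintype.card V) F.card
        (univ.sup fun v => fd F v) * Real.exp (NCS.mainR (Fintype.card V)))

/-- **The near clique bound**: `n` vertices, `n` odd, `n ≥ 23`, at least one and at most
`(n - 3) / 2` missing edges. -/
theorem near_clique_of_OutBd {hd : E → Bool → V} (hs : KL.Simple hd)
    (hev : ∀ v, Even (KL.deg hd v)) {n : ℕ} (hcard : Fintype.card V = n) (hodd : Odd n)
    (h23 : 23 ≤ n) (hlt : Fintype.card E < n * (n - 1) / 2)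
    (h2q : 2 * (n * (n - 1) / 2 - Fintype.card E) + 3 ≤ n)
    (hL : ∀ m : ℕ, Odd m → 17 ≤ m → m ≤ n → Real.exp (NCS.mainR m) ≤ KL.PK m)
    (hO : OutBd V) : KL.PA hd univ ≤ Real.exp (∑ v, KL.AA (KL.deg hd v)) := by
  have hF : KE V \ es hd ⊆ KE V := sdiff_subset
  have hKF : KE V \ (KE V \ es hd) = es hd := Finset.sdiff_sdiff_eq_self (es_sub hs)
  have hFc : (KE V \ es hd).card = n * (n - 1) / 2 - Fintype.card E := by
    rw [card_sdiff_of_subset (es_sub hs), card_KE, card_es hs, hcard]
  have hdeg : ∀ v, fd (KE V \ es hd) v + KL.deg hd v = n - 1 := by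
    intro v
    rw [← fd_es hs, fd_sdiff (es_sub hs), hcard]
  have hevF : ∀ v, Even (fd (KE V \ es hd) v) := by
    intro v
    have h1 := hdeg v
    obtain ⟨c, hc⟩ := hev v
    obtain ⟨k, hk⟩ := hodd
    exact ⟨k - c, by omega⟩
  have hne : (KE V \ es hd).Nonempty := by
    rw [← card_pos, hFc]
    omega
  obtain ⟨b, hb⟩ := exists_gauge hF (by rw [hFc, hcard]; omega)
  refine near_clique_of_out hs hev hcard hodd h23 hlt h2q hL b hb ?_
  have h1 := hO (KE V \ es hd) hF hevF (three_le_card hF hevF hne) (by rw [hFc, hcard]; omega) b hb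
  rw [hKF, hFc, hcard] at h1
  exact h1

end MP_a3e05c_co.NC
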